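import Pool.Agent.H97.Int.Hyper

set_option autoImplicit false
set_option linter.unusedSectionVars false

namespace H97.Int

open Finset

variable {V : Type*} [Fintype V] [DecidableEq V] (G : SimpleGraph V) [DecidableRel G.Adj]

/-- relative balls -/
def rb (U : Finset V) (v : V) : ℕ → Finset V
  | 0 => {v}
  | r + 1 => U ∩ nbr G (rb U v r)

lemma rb_sub_nb (U : Finset V) (v : V) (r : ℕ) : rb G U v r ⊆ nb G r {v} := by
  induction r with
  | zero => exact subset_rfl
  | succ r ih => exact Finset.inter_subset_right.trans (nbr_mono G ih)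

lemma rb_sub {U : Finset V} {v : V} (hv : v ∈ U) (r : ℕ) : rb G U v r ⊆ U := by
  cases r with
  | zero => simpa [rb] using hv
  | succ r => exact Finset.inter_subset_left

lemma rb_mono {U : Finset V} {v : V} (hv : v ∈ U) (r : ℕ) : rb G U v r ⊆ rb G U v (r + 1) := by
  intro x hx
  simp only [rb, Finset.mem_inter]
  exact ⟨rb_sub G hv r hx, subset_nbr G _ hx⟩

lemma rb_mono' {U : Finset V} {v : V} (hv : v ∈ U) {r s : ℕ} (h : r ≤ s) :
    rb G U v r ⊆ rb G U v s := by
  induction h with
  | refl => exact subset_rfl
  | step _ ih => exact ih.trans (rb_mono G hv _)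

lemma exists_shell {K R m : ℕ} (hγ : K * m ^ R < (m + 1) ^ R) {U : Finset V} {v : V}
    (hv : v ∈ U) (hball : (nb G R {v}).card ≤ K) :
    ∃ W : Finset V, v ∈ W ∧ W ⊆ U ∧ W.card ≤ K ∧ m * ((U \ W) ∩ nbr G W).card ≤ W.card := by
  by_contra hcon
  push Not at hcon
  have hRK : (rb G U v R).card ≤ K := (Finset.card_le_card (rb_sub_nb G U v R)).trans hball
  have key : ∀ i ≤ R, (m + 1) ^ i ≤ m ^ i * (rb G U v i).card := by
    intro i
    induction i with
    | zero => intro _; simp [rb]
    | succ i ih =>
      intro hi
      have h1 := ih (by omega)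
      have hvi : v ∈ rb G U v i := rb_mono' G hv (Nat.zero_le i) (by simp [rb])
      have h2 := hcon (rb G U v i) hvi (rb_sub G hv i)
        ((Finset.card_le_card (rb_mono' G hv (by omega))).trans hRK)
      have h3 : (rb G U v (i + 1)).card = (rb G U v i).card
          + ((U \ rb G U v i) ∩ nbr G (rb G U v i)).card := by
        rw [← Finset.card_union_of_disjoint]
        · congr 1
          ext x
          simp only [rb, Finset.mem_inter, Finset.mem_union, Finset.mem_sdiff]
          constructor
          · rintro ⟨a, b⟩
            by_cases hx : x ∈ rb G U v i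
            · exact Or.inl hx
            · exact Or.inr ⟨⟨a, hx⟩, b⟩
          · rintro (a | ⟨⟨a, b⟩, c⟩)
            · exact ⟨rb_sub G hv i a, subset_nbr G _ a⟩
            · exact ⟨a, c⟩
        · rw [Finset.disjoint_left]
          intro x hx hx'
          simp only [Finset.mem_inter, Finset.mem_sdiff] at hx'
          exact hx'.1.2 hx
      have h4 : (m + 1) * (rb G U v i).card ≤ m * (rb G U v (i + 1)).card := by
        rw [h3]; nlinarith
      calc (m + 1) ^ (i + 1) = (m + 1) * (m + 1) ^ i := by ring
        _ ≤ (m + 1) * (m ^ i * (rb G U v i).card) := by gcongr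
        _ = m ^ i * ((m + 1) * (rb G U v i).card) := by ring
        _ ≤ m ^ i * (m * (rb G U v (i + 1)).card) := by gcongr
        _ = m ^ (i + 1) * (rb G U v (i + 1)).card := by ring
  have h1 := key R le_rfl
  have h2 : m ^ R * (rb G U v R).card ≤ K * m ^ R := by
    rw [mul_comm]; gcongr
  omega

lemma cross_congr {c c' : V → ℕ} {U : Finset V} (h : ∀ v ∈ U, c v = c' v) :
    cross G c U = cross G c' U := by
  unfold cross
  refine Finset.sum_congr rfl fun u hu => Finset.sum_congr rfl fun v hv => ?_
  rw [h u hu, h v hv]

lemma cross_union {c : V → ℕ} {W U' : Finset V} (hd : Disjoint W U')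
    (hW : ∀ u ∈ W, ∀ v ∈ W, c u = c v) (hne : ∀ u ∈ W, ∀ v ∈ U', c u ≠ c v) :
    cross G c (W ∪ U') = cross G c U' + 2 * E G U' W := by
  unfold cross
  rw [Finset.sum_union hd]
  have h1 : ∑ u ∈ W, ∑ v ∈ W ∪ U', (if c u ≠ c v then adj G u v else 0) = E G U' W := by
    rw [E_symm G U' W]
    unfold E
    refine Finset.sum_congr rfl fun u hu => ?_
    rw [Finset.sum_union hd]
    have a1 : ∑ v ∈ W, (if c u ≠ c v then adj G u v else 0) = 0 :=
      Finset.sum_eq_zero fun v hv => by rw [if_neg]; simpa using hW u hu v hv
    have a2 : ∑ v ∈ U', (if c u ≠ c v then adj G u v else 0) = ∑ v ∈ U', adj G u v :=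
      Finset.sum_congr rfl fun v hv => by rw [if_pos (hne u hu v hv)]
    rw [a1, a2, zero_add]
  have h2 : ∑ u ∈ U', ∑ v ∈ W ∪ U', (if c u ≠ c v then adj G u v else 0)
      = E G U' W + ∑ u ∈ U', ∑ v ∈ U', (if c u ≠ c v then adj G u v else 0) := by
    unfold E
    rw [← Finset.sum_add_distrib]
    refine Finset.sum_congr rfl fun u hu => ?_
    rw [Finset.sum_union hd]
    congr 1
    exact Finset.sum_congr rfl fun v hv => by rw [if_pos (hne v hv u hu).symm]
  rw [h1, h2]; ring

/-- Ball carving. -/
theorem carve {d K R m : ℕ} (hd : ∀ v, G.degree v ≤ d) (hγ : K * m ^ R < (m + 1) ^ R)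
    (hball : ∀ v, (nb G R {v}).card ≤ K) :
    ∀ (n : ℕ) (U : Finset V), U.card = n → ∃ c : V → ℕ, (∀ v ∈ U, c v < U.card) ∧
      (∀ i, (U.filter fun v => c v = i).card ≤ K) ∧ m * cross G c U ≤ 2 * d * U.card := by
  intro n
  induction n using Nat.strong_induction_on with
  | _ n ih =>
    intro U hU
    rcases U.eq_empty_or_nonempty with rfl | ⟨v, hv⟩
    · exact ⟨fun _ => 0, by simp, by simp, by simp [cross]⟩
    · obtain ⟨W, hvW, hWU, hWK, hWm⟩ := exists_shell G hγ hv (hball v)
      set U' := U \ W with hU'
      have hcard : U'.card + W.card = U.card := Finset.card_sdiff_add_card_eq_card hWU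
      have hWpos : 1 ≤ W.card := Finset.card_pos.mpr ⟨v, hvW⟩
      obtain ⟨c', h1, h2, h3⟩ := ih U'.card (by omega) U' rfl
      have hd' : Disjoint W U' := Finset.disjoint_sdiff
      have hUU : U = W ∪ U' := (Finset.union_sdiff_of_subset hWU).symm
      set c : V → ℕ := fun x => if x ∈ W then U'.card else c' x with hc
      have hcU' : ∀ x ∈ U', c x = c' x := by
        intro x hx
        rw [hc]; simp only
        rw [if_neg (fun h => Finset.disjoint_left.mp hd' h hx)]
      have hcW : ∀ x ∈ W, c x = U'.card := by
        intro x hx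
        rw [hc]; simp only
        rw [if_pos hx]
      refine ⟨c, ?_, ?_, ?_⟩
      · intro x hx
        rw [hUU, Finset.mem_union] at hx
        rcases hx with hx | hx
        · rw [hcW x hx]; omega
        · rw [hcU' x hx]; have := h1 x hx; omega
      · intro i
        by_cases hi : i = U'.card
        · refine (Finset.card_le_card ?_).trans hWK
          intro x hx
          rw [Finset.mem_filter] at hx
          by_contra hxW
          have hxU' : x ∈ U' := by rw [hU', Finset.mem_sdiff]; exact ⟨hx.1, hxW⟩
          have := h1 x hxU'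
          rw [← hcU' x hxU', hx.2] at this
          omega
        · refine (Finset.card_le_card ?_).trans (h2 i)
          intro x hx
          rw [Finset.mem_filter] at hx ⊢
          have hxW : x ∉ W := by
            intro h
            rw [hcW x h] at hx
            exact hi hx.2.symm
          have hxU' : x ∈ U' := by rw [hU', Finset.mem_sdiff]; exact ⟨hx.1, hxW⟩
          exact ⟨hxU', by rw [← hcU' x hxU']; exact hx.2⟩
      · have hE : (m : ℤ) * E G U' W ≤ d * W.card := by
          have e1 : E G U' W ≤ d * ((U \ W) ∩ nbr G W).card := by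
            rw [E_eq_sum_nin, ← hU']
            calc ∑ u ∈ U', nin G u W
                = ∑ u ∈ U' ∩ nbr G W, nin G u W := by
                  symm
                  apply Finset.sum_subset Finset.inter_subset_left
                  intro u hu hu'
                  rw [nin_eq_zero_iff]
                  intro w hw hadj
                  apply hu'
                  rw [Finset.mem_inter]
                  exact ⟨hu, (mem_nbr G).2 (Or.inr ⟨w, hw, hadj.symm⟩)⟩
              _ ≤ ∑ _u ∈ U' ∩ nbr G W, (d : ℤ) := by
                  refine Finset.sum_le_sum fun u _ => ?_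
                  calc nin G u W ≤ nin G u univ := nin_mono G (Finset.subset_univ _) u
                    _ = G.degree u := nin_univ G u
                    _ ≤ d := by exact_mod_cast hd u
              _ = d * (U' ∩ nbr G W).card := by simp [mul_comm]
          have e2 : (m : ℤ) * ((U \ W) ∩ nbr G W).card ≤ W.card := by exact_mod_cast hWm
          calc (m : ℤ) * E G U' W ≤ m * (d * ((U \ W) ∩ nbr G W).card) := by gcongr
            _ = d * (m * ((U \ W) ∩ nbr G W).card) := by ring
            _ ≤ d * W.card := by gcongr
        have hcr : cross G c U = cross G c' U' + 2 * E G U' W := by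
          rw [hUU, cross_union G hd', cross_congr G hcU']
          · intro u hu v hv
            rw [hcW u hu, hcW v hv]
          · intro u hu v hv
            rw [hcW u hu, hcU' v hv]
            have := h1 v hv
            omega
        rw [hcr]
        have : (U.card : ℤ) = U'.card + W.card := by exact_mod_cast hcard.symm
        rw [this]
        nlinarith

end H97.Int
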