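import Pool.Agent.H97.Int.Dynamics

set_option autoImplicit false
set_option linter.unusedSectionVars false

namespace H97.Int

open Finset
open scoped Classical symmDiff

variable {V : Type*} [Fintype V] [DecidableEq V] (G : SimpleGraph V) [DecidableRel G.Adj]

/-- spin of a vertex -/
noncomputable def spin (X : Finset V) (v : V) : ℤ := if v ∈ X then 1 else -1

/-- magnetisation -/
noncomputable def mag (X : Finset V) : ℤ := ∑ v, spin X v

lemma spin_compl (X : Finset V) (v : V) : spin Xᶜ v = - spin X v := by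
  unfold spin; by_cases h : v ∈ X <;> simp [h]

lemma spin_congr {X Y : Finset V} {v : V} (h : v ∈ X ↔ v ∈ Y) : spin X v = spin Y v := by
  unfold spin; by_cases h1 : v ∈ X
  · simp [h1, h.1 h1]
  · have h2 : v ∉ Y := fun h2 => h1 (h.2 h2)
    simp [h1, h2]

lemma mag_eq (X : Finset V) : mag X = (X.card : ℤ) - Xᶜ.card := by
  unfold mag spin
  rw [Finset.sum_ite, Finset.sum_const, Finset.sum_const]
  have h1 : (univ.filter fun v => v ∈ X) = X := by ext; simp
  have h2 : (univ.filter fun v => v ∉ X) = Xᶜ := by ext; simp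
  rw [h1, h2]
  simp
  ring

lemma corr_zero (cl : ℕ → Finset V) (t : ℕ) {u v : V} (h : v ∉ nb G (t + t) {u}) :
    ∑ A : Finset V, spin (traj G cl A t) u * spin (traj G cl A t) v = 0 := by
  set B := nb G t {u} with hB
  have hinv : Function.Involutive (fun A : Finset V => A ∆ B) := fun A =>
    symmDiff_symmDiff_cancel_right B A
  have h1 := Equiv.sum_comp hinv.toPerm
    (fun A : Finset V => spin (traj G cl A t) u * spin (traj G cl A t) v)
  have h2 : ∀ A : Finset V, spin (traj G cl (A ∆ B) t) u * spin (traj G cl (A ∆ B) t) v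
      = - (spin (traj G cl A t) u * spin (traj G cl A t) v) := by
    intro A
    have h3 : spin (traj G cl (A ∆ B) t) u = - spin (traj G cl A t) u := by
      rw [← spin_compl, ← traj_compl]
      refine spin_congr (traj_local G cl t u fun w hw => ?_)
      rw [Finset.mem_symmDiff, Finset.mem_compl]
      tauto
    have h4 : spin (traj G cl (A ∆ B) t) v = spin (traj G cl A t) v := by
      refine spin_congr (traj_local G cl t v fun w hw => ?_)
      have hwB : w ∉ B := by
        intro hwB
        apply h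
        rw [nb_add]
        exact nb_mono G (by simpa using hwB) t (mem_nb_singleton_symm G hw)
      rw [Finset.mem_symmDiff]
      tauto
    rw [h3, h4]; ring
  simp only [Function.Involutive.coe_toPerm] at h1
  simp only [h2, Finset.sum_neg_distrib] at h1
  linarith

lemma spin_mul_le (X : Finset V) (u v : V) : spin X u * spin X v ≤ 1 := by
  unfold spin; by_cases h1 : u ∈ X <;> by_cases h2 : v ∈ X <;> simp [h1, h2]

lemma second_moment {d : ℕ} (hd : ∀ v, G.degree v ≤ d) (cl : ℕ → Finset V) (t : ℕ) :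
    ∑ A : Finset V, mag (traj G cl A t) ^ 2 ≤
      2 ^ Fintype.card V * (Fintype.card V * ((d : ℤ) + 1) ^ (t + t)) := by
  have h1 : ∀ A : Finset V, mag (traj G cl A t) ^ 2 =
      ∑ u, ∑ v, spin (traj G cl A t) u * spin (traj G cl A t) v := by
    intro A
    unfold mag
    rw [sq, Finset.sum_mul_sum]
  calc ∑ A : Finset V, mag (traj G cl A t) ^ 2
      = ∑ u, ∑ v, ∑ A : Finset V, spin (traj G cl A t) u * spin (traj G cl A t) v := by
        rw [Finset.sum_congr rfl fun A _ => h1 A, Finset.sum_comm]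
        exact Finset.sum_congr rfl fun u _ => Finset.sum_comm
    _ ≤ ∑ u, ∑ v, (if v ∈ nb G (t + t) {u} then (2 ^ Fintype.card V : ℤ) else 0) := by
        refine Finset.sum_le_sum fun u _ => Finset.sum_le_sum fun v _ => ?_
        by_cases h : v ∈ nb G (t + t) {u}
        · rw [if_pos h]
          calc ∑ A : Finset V, spin (traj G cl A t) u * spin (traj G cl A t) v
              ≤ ∑ _A : Finset V, (1 : ℤ) := Finset.sum_le_sum fun A _ => spin_mul_le _ _ _
            _ = 2 ^ Fintype.card V := by simp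
        · rw [if_neg h, corr_zero G cl t h]
    _ ≤ ∑ _u : V, 2 ^ Fintype.card V * ((d : ℤ) + 1) ^ (t + t) := by
        refine Finset.sum_le_sum fun u _ => ?_
        rw [← Finset.sum_filter, Finset.sum_const, nsmul_eq_mul, mul_comm]
        have h2 : (univ.filter fun v => v ∈ nb G (t + t) {u}).card ≤ (d + 1) ^ (t + t) := by
          have h3 : (univ.filter fun v => v ∈ nb G (t + t) {u}) = nb G (t + t) {u} := by
            ext; simp
          rw [h3]
          simpa using card_nb_le G hd (t + t) {u}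
        have h4 : ((univ.filter fun v => v ∈ nb G (t + t) {u}).card : ℤ) ≤
            ((d : ℤ) + 1) ^ (t + t) := by exact_mod_cast h2
        gcongr
    _ = 2 ^ Fintype.card V * (Fintype.card V * ((d : ℤ) + 1) ^ (t + t)) := by
        rw [Finset.sum_const]; simp; ring

/-- number of unsatisfied vertices -/
noncomputable def uns (A : Finset V) : ℕ := (univ.filter fun v => Uns G A v).card

lemma exists_unsSet (A : Finset V) :
    ∃ S : Finset V, S.card = uns G A ∧ ∀ v, v ∉ S → ¬ Uns G A v :=
  ⟨_, rfl, fun v hv h => hv (Finset.mem_filter.2 ⟨Finset.mem_univ v, h⟩)⟩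

lemma uns_compl' (A : Finset V) : uns G Aᶜ = uns G A := by
  unfold uns; congr 2; ext v; rw [uns_compl]

lemma balance {d : ℕ} (hd : ∀ v, G.degree v ≤ d) (X : Finset V) :
    ∃ A : Finset V, imb A ≤ 1 ∧ (uns G A : ℤ) ≤ uns G X + (d + 1) * |mag X| := by
  wlog hX : X.card ≤ Xᶜ.card generalizing X
  · obtain ⟨A, h1, h2⟩ := this Xᶜ (by rw [compl_compl]; omega)
    refine ⟨A, h1, ?_⟩
    rw [uns_compl'] at h2
    have : |mag Xᶜ| = |mag X| := by
      rw [mag_eq, mag_eq, compl_compl, abs_sub_comm]
    rwa [this] at h2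
  obtain ⟨F, hF, hFc⟩ := Finset.exists_subset_card_eq
    (s := Xᶜ) (n := (Xᶜ.card - X.card) / 2) (by omega)
  have hdis : Disjoint X F := by
    rw [Finset.disjoint_left]; intro v hv hvF
    exact (Finset.mem_compl.1 (hF hvF)) hv
  have hcard : (X ∪ F).card = X.card + F.card := Finset.card_union_of_disjoint hdis
  have hc1 := Finset.card_add_card_compl (X ∪ F)
  have hc2 := Finset.card_add_card_compl X
  refine ⟨X ∪ F, ?_, ?_⟩
  · unfold imb
    rw [abs_le]
    constructor <;> omega
  · have hsub : (univ.filter fun v => Uns G (X ∪ F) v) ⊆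
        (univ.filter fun v => Uns G X v) ∪ nbr G F := by
      intro v hv
      rw [Finset.mem_filter] at hv
      by_cases hvF : v ∈ nbr G F
      · exact Finset.mem_union_right _ hvF
      · refine Finset.mem_union_left _ (Finset.mem_filter.2 ⟨Finset.mem_univ _, ?_⟩)
        rw [mem_nbr] at hvF
        push Not at hvF
        refine (uns_congr G ?_ ?_).1 hv.2
        · rw [Finset.mem_union]; tauto
        · intro u hu
          have : u ∉ F := fun h => hvF.2 u h hu.symm
          rw [Finset.mem_union]; tauto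
    have h1 : uns G (X ∪ F) ≤ uns G X + (d + 1) * F.card := by
      unfold uns
      exact (Finset.card_le_card hsub).trans ((Finset.card_union_le _ _).trans
        (by gcongr; exact card_nbr_le G hd F))
    have h2 : (F.card : ℤ) ≤ |mag X| := by
      rw [mag_eq, abs_sub_comm, abs_of_nonneg (by omega)]
      omega
    have h3 : (uns G (X ∪ F) : ℤ) ≤ uns G X + (d + 1) * F.card := by exact_mod_cast h1
    have h4 : ((d : ℤ) + 1) * F.card ≤ (d + 1) * |mag X| := by gcongr
    linarith

/-- greedy colouring -/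
lemma exists_colouring {d : ℕ} (hd : ∀ v, G.degree v ≤ d) :
    ∃ χ : V → ℕ, (∀ v, χ v < d + 1) ∧ ∀ u v, G.Adj u v → χ u ≠ χ v := by
  have key : ∀ S : Finset V, ∃ χ : V → ℕ, (∀ v, χ v < d + 1) ∧
      ∀ u ∈ S, ∀ v ∈ S, G.Adj u v → χ u ≠ χ v := by
    intro S
    induction S using Finset.induction_on with
    | empty => exact ⟨fun _ => 0, fun _ => Nat.succ_pos d, by simp⟩
    | insert w S hw ih =>
      obtain ⟨χ, h1, h2⟩ := ih
      have h3 : ∃ c ∈ range (d + 1), c ∉ (G.neighborFinset w).image χ := by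
        by_contra hcon
        push Not at hcon
        have h4 : range (d + 1) ⊆ (G.neighborFinset w).image χ := hcon
        have h5 := Finset.card_le_card h4
        have h6 := (Finset.card_image_le (s := G.neighborFinset w) (f := χ))
        have h7 := hd w
        rw [Finset.card_range] at h5
        rw [← SimpleGraph.card_neighborFinset_eq_degree] at h7
        omega
      obtain ⟨c, hc, hcn⟩ := h3
      have hcol : ∀ u, G.Adj w u → χ u ≠ c := by
        intro u hu h
        apply hcn
        rw [Finset.mem_image]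
        exact ⟨u, by simpa using hu, h⟩
      refine ⟨Function.update χ w c, ?_, ?_⟩
      · intro v
        by_cases hv : v = w
        · subst hv; simpa using hc
        · rw [Function.update_of_ne hv]; exact h1 v
      · intro u hu v hv huv
        rw [Finset.mem_insert] at hu hv
        by_cases hu1 : u = w
        · subst hu1
          have hvu : v ≠ u := (G.ne_of_adj huv).symm
          rw [Function.update_self, Function.update_of_ne hvu]
          exact fun h => hcol v huv h.symm
        · by_cases hv1 : v = w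
          · subst hv1
            rw [Function.update_self, Function.update_of_ne hu1]
            exact hcol u huv.symm
          · rw [Function.update_of_ne hu1, Function.update_of_ne hv1]
            exact h2 u (hu.resolve_left hu1) v (hv.resolve_left hv1) huv
  obtain ⟨χ, h1, h2⟩ := key univ
  exact ⟨χ, h1, fun u v h => h2 u (Finset.mem_univ _) v (Finset.mem_univ _) h⟩

/-- a good time of a good trajectory -/
lemma exists_good {d : ℕ} (hd : ∀ v, G.degree v ≤ d) {R : ℕ} (hR : 0 < R) :
    ∃ X : Finset V, (R : ℤ) * ((d : ℤ) + 1) ^ (2 * (d + 1) * R) * uns G X + mag X ^ 2 ≤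
      ((d : ℤ) + 1) ^ (2 * (d + 1) * R) * ((d + 1) * d + 1) * Fintype.card V := by
  obtain ⟨χ, hχ1, hχ2⟩ := exists_colouring G hd
  set q := d + 1 with hq
  set Q : ℤ := ((d : ℤ) + 1) ^ (2 * q * R) with hQ
  have hQ0 : 0 ≤ Q := by positivity
  let cl : ℕ → Finset V := fun t => univ.filter fun v => χ v = t % q
  have hcl : ∀ t, ∀ u ∈ cl t, ∀ v ∈ cl t, ¬ G.Adj u v := by
    intro t u hu v hv huv
    have h1 : χ u = t % q := (Finset.mem_filter.1 hu).2
    have h2 : χ v = t % q := (Finset.mem_filter.1 hv).2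
    exact hχ2 u v huv (h1.trans h2.symm)
  have hcov : ∀ k, ∀ v : V, ∃ t, k * q ≤ t ∧ t < k * q + q ∧ v ∈ cl t := by
    intro k v
    refine ⟨k * q + χ v, Nat.le_add_right _ _, by have := hχ1 v; omega, ?_⟩
    refine Finset.mem_filter.2 ⟨Finset.mem_univ _, ?_⟩
    rw [Nat.mul_comm, Nat.mul_add_mod, Nat.mod_eq_of_lt (hχ1 v)]
  -- averaging
  let N : ℤ := 2 ^ Fintype.card V
  have hN : 0 < N := by positivity
  have hsum : ∑ A : Finset V, ∑ k ∈ range R,
      ((R : ℤ) * Q * uns G (traj G cl A (k * q)) + mag (traj G cl A (k * q)) ^ 2) ≤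
      ∑ _A : Finset V, ∑ _k ∈ range R, (Q * ((d + 1) * d + 1) * Fintype.card V : ℤ) := by
    have h1 : ∑ A : Finset V, ∑ k ∈ range R, (R : ℤ) * Q * uns G (traj G cl A (k * q)) ≤
        ∑ _A : Finset V, (R : ℤ) * Q * ((d + 1) * (d * Fintype.card V)) := by
      refine Finset.sum_le_sum fun A _ => ?_
      rw [← Finset.mul_sum]
      refine mul_le_mul_of_nonneg_left ?_ (by positivity)
      exact uns_total G hd hcl hcov A R
    have h2 : ∑ A : Finset V, ∑ k ∈ range R, mag (traj G cl A (k * q)) ^ 2 ≤
        ∑ _k ∈ range R, N * (Fintype.card V * Q) := by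
      rw [Finset.sum_comm]
      refine Finset.sum_le_sum fun k hk => ?_
      refine (second_moment G hd cl (k * q)).trans ?_
      have h3 : k * q + k * q ≤ 2 * q * R := by
        have := Finset.mem_range.1 hk
        nlinarith
      have h4 : ((d : ℤ) + 1) ^ (k * q + k * q) ≤ Q := by
        rw [hQ]
        exact pow_le_pow_right₀ (by linarith [Int.natCast_nonneg d]) h3
      have : (0 : ℤ) ≤ Fintype.card V := by positivity
      gcongr
    calc _ = ∑ A : Finset V, ∑ k ∈ range R, (R : ℤ) * Q * uns G (traj G cl A (k * q)) +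
          ∑ A : Finset V, ∑ k ∈ range R, mag (traj G cl A (k * q)) ^ 2 := by
          simp only [Finset.sum_add_distrib]
      _ ≤ ∑ _A : Finset V, (R : ℤ) * Q * ((d + 1) * (d * Fintype.card V)) +
          ∑ _k ∈ range R, N * (Fintype.card V * Q) := add_le_add h1 h2
      _ = _ := by
          simp only [Finset.sum_const, Finset.card_univ, Fintype.card_finset, Finset.card_range,
            nsmul_eq_mul]
          push_cast
          ring
  rw [← Finset.sum_product', ← Finset.sum_product'] at hsum
  have hne : ((univ : Finset (Finset V)) ×ˢ range R).Nonempty := by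
    refine ⟨(∅, 0), ?_⟩
    simp [hR]
  obtain ⟨⟨A, k⟩, -, h⟩ := Finset.exists_le_of_sum_le hne hsum
  exact ⟨traj G cl A (k * q), h⟩

/-- all but `O(n / R)` vertices are satisfied in an exact bisection -/
lemma exists_bisection {d : ℕ} (hd : ∀ v, G.degree v ≤ d) {R : ℕ} (hR : 0 < R)
    (hn : ((d + 1) * d + 1) * (d + 1) ^ (2 * (d + 1) * R) * R ^ 2 ≤ Fintype.card V) :
    ∃ A : Finset V, imb A ≤ 1 ∧ uns G A * R ≤ ((d + 1) * d + 1 + (d + 1)) * Fintype.card V := by
  obtain ⟨X, hX⟩ := exists_good G hd hR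
  obtain ⟨A, h1, h2⟩ := balance G hd X
  refine ⟨A, h1, ?_⟩
  set Q : ℤ := ((d : ℤ) + 1) ^ (2 * (d + 1) * R) with hQ
  set c : ℤ := ((d : ℤ) + 1) * d + 1 with hc
  set n : ℤ := ((Fintype.card V : ℕ) : ℤ) with hnn
  have hQ1 : 0 < Q := by positivity
  have hR0 : (0 : ℤ) < R := by exact_mod_cast hR
  have hn' : c * Q * (R : ℤ) ^ 2 ≤ n := by rw [hc, hQ, hnn]; exact_mod_cast hn
  have hn0 : 0 ≤ n := by positivity
  have h3 : (R : ℤ) * uns G X ≤ c * n := by
    have h4 : Q * ((R : ℤ) * uns G X) ≤ Q * (c * n) := by nlinarith [sq_nonneg (mag X)]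
    exact le_of_mul_le_mul_left h4 hQ1
  have h5 : |mag X| * R ≤ n := by
    have h6 : mag X ^ 2 ≤ Q * c * n := by
      have : 0 ≤ (R : ℤ) * Q * uns G X := by positivity
      linarith
    have h7 : (|mag X| * R) ^ 2 ≤ n ^ 2 := by
      calc (|mag X| * R) ^ 2 = mag X ^ 2 * (R : ℤ) ^ 2 := by rw [mul_pow, sq_abs]
        _ ≤ Q * c * n * (R : ℤ) ^ 2 := by gcongr
        _ = (c * Q * (R : ℤ) ^ 2) * n := by ring
        _ ≤ n * n := by gcongr
        _ = n ^ 2 := by ring
    exact le_of_sq_le_sq h7 hn0
  have h8 : (uns G A : ℤ) * R ≤ (c + (d + 1)) * n := by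
    calc (uns G A : ℤ) * R ≤ (uns G X + (d + 1) * |mag X|) * R := by gcongr
      _ = R * uns G X + (d + 1) * (|mag X| * R) := by ring
      _ ≤ c * n + (d + 1) * n := by gcongr
      _ = (c + (d + 1)) * n := by ring
  rw [hc, hnn] at h8
  exact_mod_cast h8

/-- exact bisection with all but `O(n / log n)` vertices satisfied -/
theorem almost (d : ℕ) : ∃ C : ℕ, ∀ (V : Type) [Fintype V] [DecidableEq V]
    (G : SimpleGraph V) [DecidableRel G.Adj], (∀ v, G.degree v ≤ d) →
    ∃ A : Finset V, imb A ≤ 1 ∧ uns G A * Nat.log 2 (Fintype.card V) ≤ C * Fintype.card V := by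
  set c := (d + 1) * d + 1 with hc
  set β := c * 4 * (d + 1) ^ (2 * (d + 1)) with hβ
  have hβ2 : 2 ≤ β := by
    have h1 : 1 ≤ c := by omega
    have h2 : 1 ≤ (d + 1) ^ (2 * (d + 1)) := Nat.one_le_pow _ _ (Nat.succ_pos d)
    nlinarith
  set L := Nat.log 2 β + 1 with hL
  have hβL : β < 2 ^ L := Nat.lt_pow_succ_log_self (by norm_num) β
  refine ⟨L * (c + (d + 1)) + L, ?_⟩
  intro V _ _ G _ hd
  have hlog : ∀ R, Fintype.card V < β ^ (R + 1) → Nat.log 2 (Fintype.card V) ≤ L * (R + 1) := by
    intro R hR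
    have h1 : Fintype.card V < 2 ^ (L * (R + 1)) := by
      calc Fintype.card V < β ^ (R + 1) := hR
        _ ≤ (2 ^ L) ^ (R + 1) := by gcongr
        _ = 2 ^ (L * (R + 1)) := by rw [pow_mul]
    have h2 : Nat.log 2 (Fintype.card V) < L * (R + 1) := by
      by_cases h0 : Fintype.card V = 0
      · rw [h0]; simp; positivity
      · exact Nat.log_lt_of_lt_pow h0 h1
    exact h2.le
  have hlt : Fintype.card V < β ^ (Nat.log β (Fintype.card V) + 1) :=
    Nat.lt_pow_succ_log_self (by omega) _
  have hunsle : ∀ A : Finset V, uns G A ≤ Fintype.card V := fun A => Finset.card_le_univ _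
  rcases Nat.eq_zero_or_pos (Nat.log β (Fintype.card V)) with h0 | hpos
  · obtain ⟨A, hA, -⟩ := balance G hd ∅
    refine ⟨A, hA, ?_⟩
    rw [h0] at hlt
    have h1 := hlog 0 hlt
    calc uns G A * Nat.log 2 (Fintype.card V) ≤ Fintype.card V * (L * (0 + 1)) :=
          Nat.mul_le_mul (hunsle A) h1
      _ ≤ (L * (c + (d + 1)) + L) * Fintype.card V := by nlinarith [Nat.zero_le (L * (c + (d + 1)) * Fintype.card V)]
  · set R := Nat.log β (Fintype.card V) with hR
    have hn0 : Fintype.card V ≠ 0 := by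
      intro h; rw [hR, h] at hpos; simp at hpos
    have hβR : β ^ R ≤ Fintype.card V := Nat.pow_log_le_self β hn0
    have hcond : c * (d + 1) ^ (2 * (d + 1) * R) * R ^ 2 ≤ Fintype.card V := by
      refine le_trans ?_ hβR
      rw [hβ, mul_pow, mul_pow, ← pow_mul]
      have h1 : c ≤ c ^ R := Nat.le_self_pow (by omega) c
      have h2 : R ^ 2 ≤ 4 ^ R := by
        have : R < 2 ^ R := Nat.lt_two_pow_self
        calc R ^ 2 ≤ (2 ^ R) ^ 2 := by gcongr
          _ = 4 ^ R := by rw [← pow_mul, mul_comm, pow_mul]; norm_num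
      calc c * (d + 1) ^ (2 * (d + 1) * R) * R ^ 2
          ≤ c ^ R * (d + 1) ^ (2 * (d + 1) * R) * 4 ^ R := by gcongr
        _ = c ^ R * 4 ^ R * (d + 1) ^ (2 * (d + 1) * R) := by ring
    obtain ⟨A, hA, hA2⟩ := exists_bisection G hd hpos hcond
    refine ⟨A, hA, ?_⟩
    have h1 := hlog R hlt
    calc uns G A * Nat.log 2 (Fintype.card V) ≤ uns G A * (L * (R + 1)) :=
          Nat.mul_le_mul_left _ h1
      _ = L * (uns G A * R) + L * uns G A := by ring
      _ ≤ L * ((c + (d + 1)) * Fintype.card V) + L * Fintype.card V := by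
          gcongr
          exact hunsle A
      _ = (L * (c + (d + 1)) + L) * Fintype.card V := by ring

end H97.Int
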