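import Mathlib

set_option autoImplicit false
set_option linter.unusedSectionVars false

/-!
Internal partitions (MP_363a78_co): edge counts, satisfied sets, the energy
`cut + lambda * imbalance`.
-/

namespace H97.Int

open Finset

variable {V : Type*} [Fintype V] [DecidableEq V] (G : SimpleGraph V) [DecidableRel G.Adj]

/-- indicator of adjacency -/
def adj (u v : V) : ℤ := if G.Adj u v then 1 else 0

lemma adj_symm (u v : V) : adj G u v = adj G v u := by
  unfold adj; simp [G.adj_comm]

lemma adj_nonneg (u v : V) : 0 ≤ adj G u v := by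
  unfold adj; split_ifs <;> simp

lemma adj_self (u : V) : adj G u u = 0 := by
  unfold adj; simp

/-- number of (ordered) adjacent pairs in `S × T` -/
def E (S T : Finset V) : ℤ := ∑ u ∈ S, ∑ v ∈ T, adj G u v

lemma E_symm (S T : Finset V) : E G S T = E G T S := by
  unfold E
  rw [Finset.sum_comm]
  refine Finset.sum_congr rfl fun u _ => Finset.sum_congr rfl fun v _ => ?_
  exact adj_symm G v u

lemma E_nonneg (S T : Finset V) : 0 ≤ E G S T :=
  Finset.sum_nonneg fun u _ => Finset.sum_nonneg fun v _ => adj_nonneg G u v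

lemma E_union_left {S S' : Finset V} (h : Disjoint S S') (T : Finset V) :
    E G (S ∪ S') T = E G S T + E G S' T := by
  unfold E; rw [Finset.sum_union h]

lemma E_union_right {T T' : Finset V} (h : Disjoint T T') (S : Finset V) :
    E G S (T ∪ T') = E G S T + E G S T' := by
  rw [E_symm, E_union_left G h, E_symm G T S, E_symm G T' S]

lemma E_empty_left (T : Finset V) : E G ∅ T = 0 := by simp [E]
lemma E_empty_right (T : Finset V) : E G T ∅ = 0 := by simp [E]

lemma E_mono_left {S S' : Finset V} (h : S ⊆ S') (T : Finset V) : E G S T ≤ E G S' T :=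
  Finset.sum_le_sum_of_subset_of_nonneg h
    fun u _ _ => Finset.sum_nonneg fun v _ => adj_nonneg G u v

lemma E_mono_right {T T' : Finset V} (h : T ⊆ T') (S : Finset V) : E G S T ≤ E G S T' := by
  rw [E_symm G S T, E_symm G S T']; exact E_mono_left G h S

/-- number of neighbours of `v` in `S` -/
def nin (v : V) (S : Finset V) : ℤ := E G {v} S

lemma nin_eq (v : V) (S : Finset V) : nin G v S = ((G.neighborFinset v ∩ S).card : ℤ) := by
  unfold nin E adj
  rw [Finset.sum_singleton, ← Finset.sum_filter]
  simp only [Finset.sum_const, nsmul_eq_mul, mul_one]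
  congr 1
  congr 1
  ext u
  simp [SimpleGraph.mem_neighborFinset, and_comm]

lemma nin_nonneg (v : V) (S : Finset V) : 0 ≤ nin G v S := E_nonneg G _ _

lemma nin_mono {S T : Finset V} (h : S ⊆ T) (v : V) : nin G v S ≤ nin G v T :=
  E_mono_right G h _

lemma nin_union {S T : Finset V} (h : Disjoint S T) (v : V) :
    nin G v (S ∪ T) = nin G v S + nin G v T := E_union_right G h _

lemma E_eq_sum_nin (S T : Finset V) : E G S T = ∑ v ∈ S, nin G v T := by
  unfold nin E
  simp

lemma nin_univ (v : V) : nin G v univ = (G.degree v : ℤ) := by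
  rw [nin_eq]; simp

lemma nin_add_compl (v : V) (S : Finset V) : nin G v S + nin G v Sᶜ = (G.degree v : ℤ) := by
  rw [← nin_univ, ← nin_union G (disjoint_compl_right), Finset.union_compl]

lemma nin_eq_zero_iff (v : V) (S : Finset V) : nin G v S = 0 ↔ ∀ u ∈ S, ¬ G.Adj v u := by
  rw [nin_eq]
  simp only [Nat.cast_eq_zero, Finset.card_eq_zero]
  constructor
  · intro h u hu hadj
    have : u ∈ G.neighborFinset v ∩ S := by simp [hu, hadj]
    rw [h] at this; simp at this
  · intro h
    ext u
    simp only [Finset.mem_inter, SimpleGraph.mem_neighborFinset, Finset.notMem_empty, iff_false]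
    rintro ⟨h1, h2⟩
    exact h u h2 h1

/-- number of cut edges -/
def cut (A : Finset V) : ℤ := E G A Aᶜ

lemma cut_nonneg (A : Finset V) : 0 ≤ cut G A := E_nonneg G _ _

lemma cut_compl (A : Finset V) : cut G Aᶜ = cut G A := by
  unfold cut; rw [compl_compl, E_symm]

lemma cut_empty : cut G ∅ = 0 := by simp [cut, E_empty_left]

lemma compl_eq_union {A X : Finset V} (h : Disjoint A X) : Aᶜ = (A ∪ X)ᶜ ∪ X := by
  ext u
  simp only [Finset.mem_compl, Finset.mem_union, not_or]
  constructor
  · intro hu
    by_cases hx : u ∈ X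
    · exact Or.inr hx
    · exact Or.inl ⟨hu, hx⟩
  · rintro (⟨h1, _⟩ | hx)
    · exact h1
    · exact fun ha => (Finset.disjoint_left.mp h ha) hx

lemma disj_compl_union {A X : Finset V} : Disjoint ((A ∪ X)ᶜ) X := by
  rw [Finset.disjoint_left]
  intro u hu hx
  simp at hu
  exact hu.2 hx

/-- change of the cut when a set `X` disjoint from `A` is moved into `A` -/
lemma cut_union {A X : Finset V} (h : Disjoint A X) :
    cut G (A ∪ X) = cut G A + E G X (A ∪ X)ᶜ - E G X A := by
  unfold cut
  rw [E_union_left G h]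
  have h1 : E G A Aᶜ = E G A (A ∪ X)ᶜ + E G A X := by
    conv_lhs => rw [compl_eq_union h]
    exact E_union_right G disj_compl_union A
  rw [h1, E_symm G A X]
  ring

lemma cut_insert {A : Finset V} {v : V} (h : v ∉ A) :
    cut G (insert v A) = cut G A + nin G v (insert v A)ᶜ - nin G v A := by
  have := cut_union G (A := A) (X := {v}) (by simpa using h)
  rw [Finset.union_comm, ← Finset.insert_eq] at this
  exact this

/-- moving two sets without edges between them -/
lemma cut_split {A W Y : Finset V} (hAW : Disjoint A W) (hAY : Disjoint A Y) (hWY : Disjoint W Y)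
    (h0 : E G Y W = 0) :
    cut G (A ∪ W ∪ Y) - cut G (A ∪ W) = cut G (A ∪ Y) - cut G A := by
  have hd : Disjoint (A ∪ W) Y := by
    rw [Finset.disjoint_union_left]; exact ⟨hAY, hWY⟩
  rw [cut_union G hd, cut_union G hAY, E_union_right G hAW]
  have : E G Y (A ∪ Y)ᶜ = E G Y (A ∪ W ∪ Y)ᶜ + E G Y W := by
    have h2 : (A ∪ Y)ᶜ = (A ∪ W ∪ Y)ᶜ ∪ W := by
      have := compl_eq_union (A := A ∪ Y) (X := W) (by
        rw [Finset.disjoint_union_left]; exact ⟨hAW, hWY.symm⟩)
      rw [this]
      congr 2
      ext u; simp; tauto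
    rw [h2]
    refine E_union_right G ?_ Y
    rw [Finset.disjoint_left]
    intro u hu hx
    simp at hu
    tauto
  rw [this, h0]
  ring

/-- `S` is satisfied: every vertex of `S` has at least half of its neighbours in `S`. -/
def Sat (S : Finset V) : Prop := ∀ v ∈ S, nin G v Sᶜ ≤ nin G v S

lemma sat_empty : Sat G ∅ := by intro v hv; simp at hv

lemma nin_sat_mono {S T : Finset V} (h : S ⊆ T) {v : V} (hv : nin G v Sᶜ ≤ nin G v S) :
    nin G v Tᶜ ≤ nin G v T :=
  (nin_mono G (Finset.compl_subset_compl.mpr h) v).trans (hv.trans (nin_mono G h v))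

lemma Sat.union {S T : Finset V} (hS : Sat G S) (hT : Sat G T) : Sat G (S ∪ T) := by
  intro v hv
  rcases Finset.mem_union.mp hv with h | h
  · exact nin_sat_mono G Finset.subset_union_left (hS v h)
  · exact nin_sat_mono G Finset.subset_union_right (hT v h)

lemma E_univ_right (X : Finset V) : E G X univ = ∑ v ∈ X, (G.degree v : ℤ) := by
  rw [E_eq_sum_nin]
  exact Finset.sum_congr rfl fun v _ => nin_univ G v

lemma cut_union_le {A X : Finset V} {d : ℕ} (h : Disjoint A X) (hd : ∀ v, G.degree v ≤ d) :
    cut G (A ∪ X) ≤ cut G A + d * X.card := by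
  rw [cut_union G h]
  have h1 : E G X (A ∪ X)ᶜ ≤ d * X.card := by
    calc E G X (A ∪ X)ᶜ ≤ E G X univ := E_mono_right G (Finset.subset_univ _) X
      _ = ∑ v ∈ X, (G.degree v : ℤ) := E_univ_right G X
      _ ≤ ∑ _v ∈ X, (d : ℤ) := Finset.sum_le_sum fun v _ => by exact_mod_cast hd v
      _ = d * X.card := by simp [mul_comm]
  have h2 := E_nonneg G X A
  linarith

/-- exact formula for regular graphs -/
lemma cut_union_regular {A X : Finset V} {d : ℕ} (h : Disjoint A X)
    (hd : ∀ v, G.degree v = d) :
    cut G (A ∪ X) = cut G A + d * X.card - E G X X - 2 * E G X A := by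
  rw [cut_union G h]
  have h1 : E G X univ = d * X.card := by
    rw [E_univ_right]
    simp [hd, mul_comm]
  have h2 : E G X univ = E G X (A ∪ X)ᶜ + (E G X A + E G X X) := by
    rw [← E_union_right G h, ← E_union_right G (disjoint_compl_left)]
    congr 1
    ext u; simp; tauto
  linarith

end H97.Int
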