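import Pool.Agent.H97.Int.Opt

set_option autoImplicit false
set_option linter.unusedSectionVars false

namespace H97.Int

open Finset

variable {V : Type*} [Fintype V] [DecidableEq V] (G : SimpleGraph V) [DecidableRel G.Adj]

/-- closed neighbourhood of a set -/
def nbr (U : Finset V) : Finset V := U ∪ U.biUnion fun u => G.neighborFinset u

/-- iterated closed neighbourhood -/
def nb : ℕ → Finset V → Finset V
  | 0, U => U
  | r + 1, U => nbr G (nb r U)

lemma mem_nbr {U : Finset V} {x : V} : x ∈ nbr G U ↔ x ∈ U ∨ ∃ u ∈ U, G.Adj u x := by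
  unfold nbr; simp

lemma subset_nbr (U : Finset V) : U ⊆ nbr G U := Finset.subset_union_left

lemma nbr_mono {U W : Finset V} (h : U ⊆ W) : nbr G U ⊆ nbr G W := by
  intro x hx
  rw [mem_nbr] at hx ⊢
  rcases hx with hx | ⟨u, hu, hux⟩
  · exact Or.inl (h hx)
  · exact Or.inr ⟨u, h hu, hux⟩

lemma nb_mono {U W : Finset V} (h : U ⊆ W) (r : ℕ) : nb G r U ⊆ nb G r W := by
  induction r with
  | zero => exact h
  | succ r ih => exact nbr_mono G ih

lemma nb_add (r s : ℕ) (U : Finset V) : nb G (r + s) U = nb G r (nb G s U) := by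
  induction r with
  | zero => simp [nb]
  | succ r ih =>
    rw [show r + 1 + s = (r + s) + 1 by ring]
    simp only [nb]
    rw [ih]

lemma subset_nb (r : ℕ) (U : Finset V) : U ⊆ nb G r U := by
  induction r with
  | zero => exact subset_rfl
  | succ r ih => exact ih.trans (subset_nbr G _)

lemma nb_mono_left {r s : ℕ} (h : r ≤ s) (U : Finset V) : nb G r U ⊆ nb G s U := by
  obtain ⟨k, rfl⟩ := Nat.exists_eq_add_of_le h
  rw [add_comm, nb_add]
  exact subset_nb G k _

lemma card_nbr_le {d : ℕ} (hd : ∀ v, G.degree v ≤ d) (U : Finset V) :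
    (nbr G U).card ≤ (d + 1) * U.card := by
  unfold nbr
  calc (U ∪ U.biUnion fun u => G.neighborFinset u).card
      ≤ U.card + (U.biUnion fun u => G.neighborFinset u).card := Finset.card_union_le _ _
    _ ≤ U.card + ∑ u ∈ U, (G.neighborFinset u).card := by
        gcongr; exact Finset.card_biUnion_le
    _ ≤ U.card + ∑ _u ∈ U, d := by
        gcongr with u _
        exact hd u
    _ = (d + 1) * U.card := by simp; ring

lemma card_nb_le {d : ℕ} (hd : ∀ v, G.degree v ≤ d) (r : ℕ) (U : Finset V) :
    (nb G r U).card ≤ (d + 1) ^ r * U.card := by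
  induction r with
  | zero => simp [nb]
  | succ r ih =>
    calc (nb G (r + 1) U).card ≤ (d + 1) * (nb G r U).card := card_nbr_le G hd _
      _ ≤ (d + 1) * ((d + 1) ^ r * U.card) := by gcongr
      _ = (d + 1) ^ (r + 1) * U.card := by ring

lemma mem_nb_singleton_symm {r : ℕ} : ∀ {x y : V}, x ∈ nb G r {y} → y ∈ nb G r {x} := by
  induction r with
  | zero => intro x y h; simp [nb] at h ⊢; exact h.symm
  | succ r ih =>
    intro x y h
    simp only [nb, mem_nbr] at h
    rw [nb_add]
    rcases h with h | ⟨z, hz, hzx⟩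
    · exact nb_mono G (subset_nb G 1 _) r (ih h)
    · have h1 : z ∈ nb G 1 {x} := by
        simp only [nb, mem_nbr]
        exact Or.inr ⟨x, by simp, hzx.symm⟩
      exact nb_mono G (by simpa using h1) r (ih hz)

lemma mem_nb_iff {r : ℕ} {U : Finset V} {x : V} :
    x ∈ nb G r U ↔ ∃ u ∈ U, x ∈ nb G r {u} := by
  constructor
  · induction r generalizing x with
    | zero => intro h; exact ⟨x, h, by simp [nb]⟩
    | succ r ih =>
      intro h
      simp only [nb, mem_nbr] at h
      rcases h with h | ⟨z, hz, hzx⟩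
      · obtain ⟨u, hu, hxu⟩ := ih h
        exact ⟨u, hu, subset_nbr G _ hxu⟩
      · obtain ⟨u, hu, hxu⟩ := ih hz
        exact ⟨u, hu, (mem_nbr G).2 (Or.inr ⟨z, hxu, hzx⟩)⟩
  · rintro ⟨u, hu, hxu⟩
    exact nb_mono G (by simpa using hu) r hxu

/-- The part of `Z` connected to `X`. -/
lemma exists_component {X Z : Finset V} (hXZ : X ⊆ Z) :
    ∃ W, X ⊆ W ∧ W ⊆ Z ∧ W ⊆ nb G Z.card X ∧ E G (Z \ W) W = 0 := by
  classical
  let F : Finset (Finset V) := Z.powerset.filter
    fun W => X ⊆ W ∧ W ⊆ nb G (W.card - X.card) X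
  have hF : F.Nonempty := ⟨X, by
    simp only [F, Finset.mem_filter, Finset.mem_powerset]
    refine ⟨hXZ, subset_rfl, ?_⟩
    simp [nb]⟩
  obtain ⟨W, hW, hmax⟩ := Finset.exists_max_image F Finset.card hF
  simp only [F, Finset.mem_filter, Finset.mem_powerset] at hW
  obtain ⟨hWZ, hXW, hWnb⟩ := hW
  have hXWc := Finset.card_le_card hXW
  refine ⟨W, hXW, hWZ, hWnb.trans (nb_mono_left G ?_ X), ?_⟩
  · have := Finset.card_le_card hWZ; omega
  · unfold E
    refine Finset.sum_eq_zero fun z hz => Finset.sum_eq_zero fun w hw => ?_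
    unfold adj
    rw [if_neg]
    intro hadj
    rw [Finset.mem_sdiff] at hz
    have hcard : (insert z W).card = W.card + 1 := Finset.card_insert_of_notMem hz.2
    have hmem : insert z W ∈ F := by
      simp only [F, Finset.mem_filter, Finset.mem_powerset]
      refine ⟨Finset.insert_subset hz.1 hWZ, hXW.trans (Finset.subset_insert _ _), ?_⟩
      rw [hcard, show W.card + 1 - X.card = (W.card - X.card) + 1 by omega]
      intro x hx
      simp only [nb, mem_nbr]
      rcases Finset.mem_insert.mp hx with rfl | hx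
      · exact Or.inr ⟨w, hWnb hw, hadj.symm⟩
      · exact Or.inl (hWnb hx)
    have := hmax _ hmem
    omega

/-- A satisfied set contains a connected satisfied set around each of its vertices. -/
lemma exists_sat_component {S : Finset V} (hS : Sat G S) {v : V} (hv : v ∈ S) :
    ∃ W, v ∈ W ∧ W ⊆ S ∧ W ⊆ nb G S.card {v} ∧ Sat G W := by
  obtain ⟨W, h1, h2, h3, h4⟩ := exists_component G (X := {v}) (Z := S) (by simpa using hv)
  refine ⟨W, by simpa using h1, h2, h3, ?_⟩
  intro u hu
  have h5 : nin G u (S \ W) = 0 := by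
    rw [nin_eq_zero_iff]
    intro z hz hadj
    have h6 : adj G z u ≤ E G (S \ W) W := by
      unfold E
      calc adj G z u ≤ ∑ w ∈ W, adj G z w :=
            Finset.single_le_sum (f := fun w => adj G z w) (fun w _ => adj_nonneg G z w) hu
        _ ≤ ∑ z ∈ S \ W, ∑ w ∈ W, adj G z w :=
            Finset.single_le_sum (f := fun z => ∑ w ∈ W, adj G z w)
              (fun z _ => Finset.sum_nonneg fun w _ => adj_nonneg G z w) hz
    rw [h4] at h6
    unfold adj at h6
    rw [if_pos hadj.symm] at h6
    omega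
  have h6 : nin G u S = nin G u W := by
    have : S = W ∪ (S \ W) := (Finset.union_sdiff_of_subset h2).symm
    rw [this, nin_union G Finset.disjoint_sdiff, h5, add_zero]
  have h7 := nin_add_compl G u S
  have h8 := nin_add_compl G u W
  have h9 := hS u (h2 hu)
  linarith

/-- Closure: moving a small satisfied set across an optimal partition. -/
lemma exists_closure {d K T : ℕ} (hd : ∀ v, G.degree v ≤ d) {A : Finset V}
    (hA : Sat G A)
    (hcost : ∀ X : Finset V, Disjoint A X → X.card ≤ T →
      (X.card : ℤ) ≤ cut G (A ∪ X) - cut G A)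
    (hT : (d + 1) * K + 1 ≤ T)
    {S : Finset V} (hS : Sat G S) (hSK : S.card ≤ K) :
    ∃ Z : Finset V, Disjoint A Z ∧ S \ A ⊆ Z ∧ Z.card ≤ (d + 1) * K ∧
      Sat G (A ∪ Z) ∧ Sat G (A ∪ Z)ᶜ ∧ Z ⊆ nb G ((d + 1) * K) (S \ A) := by
  classical
  set X := S \ A with hX
  have hXK : X.card ≤ K := (Finset.card_le_card Finset.sdiff_subset).trans hSK
  have hAX : Disjoint A X := Finset.disjoint_sdiff
  have hKT : K ≤ T := by nlinarith
  let F : Finset (Finset V) := (Aᶜ).powerset.filter fun Z => X ⊆ Z ∧ Z.card ≤ T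
  have hXF : X ∈ F := by
    simp only [F, Finset.mem_filter, Finset.mem_powerset]
    refine ⟨?_, subset_rfl, hXK.trans hKT⟩
    intro x hx; rw [hX, Finset.mem_sdiff] at hx; simpa using hx.2
  let Ψ : Finset V → ℤ := fun Z => 2 * cut G (A ∪ Z) + Z.card
  obtain ⟨Z, hZ, hmin⟩ := Finset.exists_min_image F Ψ ⟨X, hXF⟩
  have hZ' := hZ
  simp only [F, Finset.mem_filter, Finset.mem_powerset] at hZ'
  obtain ⟨hZA, hXZ, hZT⟩ := hZ'
  have hAZ : Disjoint A Z := by
    rw [Finset.disjoint_left]; intro a ha haz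
    have := hZA haz
    simp at this; exact this ha
  have hZcost := hcost Z hAZ hZT
  have hZX := hmin X hXF
  simp only [Ψ] at hZX
  have hcX := cut_union_le G (A := A) (X := X) hAX hd
  have hZcard : Z.card ≤ (d + 1) * K := by
    have h1 : (3 : ℤ) * Z.card ≤ (2 * d + 1) * X.card := by linarith
    have h2 : (X.card : ℤ) ≤ K := by exact_mod_cast hXK
    have h3 : (3 : ℤ) * Z.card ≤ 3 * ((d + 1) * K) := by nlinarith [Int.natCast_nonneg d]
    have h4 : (Z.card : ℤ) ≤ (d + 1) * K := by linarith
    exact_mod_cast h4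
  have hSub : S ⊆ A ∪ Z := by
    intro x hx
    by_cases hxA : x ∈ A
    · exact Finset.mem_union_left _ hxA
    · exact Finset.mem_union_right _ (hXZ (by rw [hX, Finset.mem_sdiff]; exact ⟨hx, hxA⟩))
  refine ⟨Z, hAZ, hXZ, hZcard, ?_, ?_, ?_⟩
  · intro u hu
    rcases Finset.mem_union.mp hu with hu | hu
    · exact nin_sat_mono G Finset.subset_union_left (hA u hu)
    · by_cases huS : u ∈ S
      · exact nin_sat_mono G hSub (hS u huS)
      · -- remove u from Z
        have huA : u ∉ A := fun h => (Finset.disjoint_left.mp hAZ h) hu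
        have hF' : Z.erase u ∈ F := by
          simp only [F, Finset.mem_filter, Finset.mem_powerset]
          refine ⟨(Finset.erase_subset _ _).trans hZA, ?_, ?_⟩
          · intro x hx
            rw [Finset.mem_erase]
            refine ⟨?_, hXZ hx⟩
            rintro rfl
            rw [hX, Finset.mem_sdiff] at hx
            exact huS hx.1
          · exact (Finset.card_le_card (Finset.erase_subset _ _)).trans hZT
        have h1 := hmin _ hF'
        simp only [Ψ] at h1
        have h2 : (A ∪ Z) = insert u (A ∪ Z.erase u) := by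
          rw [Finset.insert_eq, Finset.union_comm {u}, Finset.union_assoc]
          congr 1
          rw [Finset.union_comm, ← Finset.insert_eq, Finset.insert_erase hu]
        have h3 : u ∉ A ∪ Z.erase u := by
          simp [huA]
        have h4 : ((Z.erase u).card : ℤ) = Z.card - 1 := by
          rw [Finset.card_erase_of_mem hu]
          have : 1 ≤ Z.card := Finset.card_pos.mpr ⟨u, hu⟩
          omega
        have h5 := cut_insert G h3
        rw [← h2] at h5
        rw [h4] at h1
        have h6 : nin G u (A ∪ Z) = nin G u (A ∪ Z.erase u) := by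
          have hh : A ∪ Z = (A ∪ Z.erase u) ∪ {u} := by
            rw [Finset.union_comm _ {u}, ← Finset.insert_eq]; exact h2
          rw [hh, nin_union G (by rw [Finset.disjoint_singleton_right]; exact h3)]
          have : nin G u {u} = 0 := by simp [nin, E, adj_self]
          rw [this, add_zero]
        rw [h6]
        linarith
  · intro u hu
    rw [compl_compl]
    have huAZ : u ∉ A ∪ Z := by simpa using hu
    have huA : u ∉ A := fun h => huAZ (Finset.mem_union_left _ h)
    have huZ : u ∉ Z := fun h => huAZ (Finset.mem_union_right _ h)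
    have hF' : insert u Z ∈ F := by
      simp only [F, Finset.mem_filter, Finset.mem_powerset]
      refine ⟨?_, hXZ.trans (Finset.subset_insert _ _), ?_⟩
      · intro x hx
        rcases Finset.mem_insert.mp hx with rfl | hx
        · simpa using huA
        · exact hZA hx
      · rw [Finset.card_insert_of_notMem huZ]; omega
    have h1 := hmin _ hF'
    simp only [Ψ] at h1
    rw [Finset.card_insert_of_notMem huZ, Finset.union_insert] at h1
    have h5 := cut_insert' G huAZ
    rw [h5] at h1
    push_cast at h1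
    omega
  · obtain ⟨W, hXW, hWZ, hWnb, hW0⟩ := exists_component G hXZ
    have hWZeq : Z \ W = ∅ := by
      set Y := Z \ W with hY
      have hWF : W ∈ F := by
        simp only [F, Finset.mem_filter, Finset.mem_powerset]
        exact ⟨hWZ.trans hZA, hXW, (Finset.card_le_card hWZ).trans hZT⟩
      have h1 := hmin W hWF
      simp only [Ψ] at h1
      have hAW : Disjoint A W := hAZ.mono_right hWZ
      have hAY : Disjoint A Y := hAZ.mono_right Finset.sdiff_subset
      have hWY : Disjoint W Y := Finset.disjoint_sdiff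
      have h2 := cut_split G hAW hAY hWY hW0
      have h3 : A ∪ W ∪ Y = A ∪ Z := by
        rw [Finset.union_assoc, Finset.union_sdiff_of_subset hWZ]
      rw [h3] at h2
      have h4 := hcost Y hAY ((Finset.card_le_card Finset.sdiff_subset).trans hZT)
      have h5 : (Z.card : ℤ) = W.card + Y.card := by
        rw [← Finset.card_sdiff_add_card_eq_card hWZ]; push_cast; ring
      have h6 : (Y.card : ℤ) ≤ 0 := by linarith
      have h7 : Y.card = 0 := by omega
      exact Finset.card_eq_zero.mp h7
    have : Z ⊆ W := by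
      rw [Finset.sdiff_eq_empty_iff_subset] at hWZeq; exact hWZeq
    exact this.trans (hWnb.trans (nb_mono_left G hZcard X))

/-- good sets can be combined when their closed neighbourhoods are disjoint -/
lemma good_union {A Z Z' : Finset V} (hZ : Sat G (A ∪ Z)) (hZc : Sat G (A ∪ Z)ᶜ)
    (hZ' : Sat G (A ∪ Z')) (hZc' : Sat G (A ∪ Z')ᶜ)
    (hdisj : Disjoint (nbr G Z) (nbr G Z')) :
    Sat G (A ∪ (Z ∪ Z')) ∧ Sat G (A ∪ (Z ∪ Z'))ᶜ := by
  constructor
  · have : A ∪ (Z ∪ Z') = (A ∪ Z) ∪ (A ∪ Z') := by
      ext x; simp; tauto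
    rw [this]; exact hZ.union G hZ'
  · intro u hu
    rw [compl_compl]
    have huA : u ∉ A := by intro h; simp [h] at hu
    have huZ : u ∉ Z := by intro h; simp [h] at hu
    have huZ' : u ∉ Z' := by intro h; simp [h] at hu
    -- u has no neighbour in Z or no neighbour in Z'
    have key : ∀ Z1 Z2 : Finset V, u ∉ Z1 → Sat G (A ∪ Z1)ᶜ → nin G u Z2 = 0 →
        nin G u (A ∪ (Z1 ∪ Z2)) ≤ nin G u (A ∪ (Z1 ∪ Z2))ᶜ := by
      intro Z1 Z2 hu1 hsat h0
      have h1 := hsat u (by simp [huA, hu1])
      rw [compl_compl] at h1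
      have h2 : nin G u (A ∪ (Z1 ∪ Z2)) ≤ nin G u (A ∪ Z1) := by
        have : nin G u (A ∪ (Z1 ∪ Z2)) = nin G u (A ∪ Z1) + nin G u ((Z2 \ (A ∪ Z1))) := by
          rw [← nin_union G Finset.disjoint_sdiff]
          congr 1
          ext x; simp
        have h3 : nin G u (Z2 \ (A ∪ Z1)) ≤ nin G u Z2 := nin_mono G Finset.sdiff_subset u
        linarith
      have h3 := nin_add_compl G u (A ∪ (Z1 ∪ Z2))
      have h4 := nin_add_compl G u (A ∪ Z1)
      linarith
    by_cases h : ∃ z ∈ Z, G.Adj u z
    · obtain ⟨z, hz, hadj⟩ := h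
      refine key Z Z' huZ hZc ?_
      rw [nin_eq_zero_iff]
      intro z' hz' hadj'
      have h1 : u ∈ nbr G Z := (mem_nbr G).2 (Or.inr ⟨z, hz, hadj.symm⟩)
      have h2 : u ∈ nbr G Z' := (mem_nbr G).2 (Or.inr ⟨z', hz', hadj'.symm⟩)
      exact Finset.disjoint_left.mp hdisj h1 h2
    · push Not at h
      have := key Z' Z huZ' hZc' ((nin_eq_zero_iff G u Z).2 h)
      rwa [Finset.union_comm Z' Z] at this

/-- Core theorem: enough small satisfied sets compared with the imbalance. -/
theorem core {d K : ℕ} (hd : ∀ v, G.degree v ≤ d) {A : Finset V}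
    (hcard : A.card ≤ Aᶜ.card) (hA : Sat G A) (hAc : Sat G Aᶜ)
    (hcost : ∀ X : Finset V, Disjoint A X → 2 * X.card ≤ Aᶜ.card - A.card →
      (X.card : ℤ) ≤ cut G (A ∪ X) - cut G A)
    (P : Finset V) (hP : ∀ v ∈ P, ∃ S : Finset V, v ∈ S ∧ Sat G S ∧ S.card ≤ K)
    (hbig : Fintype.card V + (d + 1) ^ ((d + 2) * K + 2) * (Aᶜ.card - A.card) < 2 * P.card) :
    ∃ A' : Finset V, Sat G A' ∧ Sat G A'ᶜ ∧ imb A' ≤ 2 * ((d + 1) * K) + 1 := by
  classical
  set D := Aᶜ.card - A.card with hD
  have hDc : Aᶜ.card = A.card + D := by omega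
  by_cases hsmall : D ≤ 2 * ((d + 1) * K) + 1
  · refine ⟨A, hA, hAc, ?_⟩
    unfold imb
    rw [hDc]
    push_cast
    rw [show (A.card : ℤ) + D - A.card = D by ring, abs_of_nonneg (by positivity)]
    exact_mod_cast hsmall
  push Not at hsmall
  set T := D / 2 with hT
  have hcostT : ∀ X : Finset V, Disjoint A X → X.card ≤ T →
      (X.card : ℤ) ≤ cut G (A ∪ X) - cut G A := by
    intro X hX hXT
    exact hcost X hX (by omega)
  let F : Finset (Finset V) := (Aᶜ).powerset.filter
    fun Z => Sat G (A ∪ Z) ∧ Sat G (A ∪ Z)ᶜ ∧ Z.card ≤ T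
  have hF : (∅ : Finset V) ∈ F := by
    simp only [F, Finset.mem_filter, Finset.mem_powerset]
    simp [hA, hAc]
  obtain ⟨Z, hZ, hmax⟩ := Finset.exists_max_image F Finset.card ⟨∅, hF⟩
  simp only [F, Finset.mem_filter, Finset.mem_powerset] at hZ
  obtain ⟨hZA, hZs, hZc, hZT⟩ := hZ
  have hAZ : Disjoint A Z := by
    rw [Finset.disjoint_left]; intro a ha haz
    have := hZA haz
    simp at this; exact this ha
  have hcardAZ : (A ∪ Z).card = A.card + Z.card := Finset.card_union_of_disjoint hAZ
  have hcardAZc : ((A ∪ Z)ᶜ.card : ℤ) = A.card + D - Z.card := by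
    rw [card_compl_int, hcardAZ]
    have h1 := card_compl_int A
    rw [hDc] at h1
    push_cast at h1 ⊢
    linarith
  by_cases hfar : ∃ v ∈ P, v ∉ A ∧ v ∉ nb G ((d + 2) * K + 2) Z
  · obtain ⟨v, hvP, hvA, hvZ⟩ := hfar
    obtain ⟨S0, hvS0, hS0, hS0K⟩ := hP v hvP
    obtain ⟨S, hvS, hSS0, hSnb, hS⟩ := exists_sat_component G hS0 hvS0
    have hSK : S.card ≤ K := (Finset.card_le_card hSS0).trans hS0K
    obtain ⟨Z', hAZ', hSZ', hZ'c, hZ's, hZ'sc, hZ'nb⟩ :=
      exists_closure G hd hA hcostT (by omega) hS hSK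
    have hvZ' : v ∈ Z' := hSZ' (by rw [Finset.mem_sdiff]; exact ⟨hvS, hvA⟩)
    have hdisj : Disjoint (nbr G Z) (nbr G Z') := by
      rw [Finset.disjoint_left]
      intro u hu hu'
      apply hvZ
      -- u ∈ nb 1 Z, u ∈ nb (1 + (d+1)K + K) {v}
      have h1 : Z' ⊆ nb G ((d + 1) * K + K) {v} := by
        refine hZ'nb.trans ?_
        rw [nb_add]
        apply nb_mono
        exact Finset.sdiff_subset.trans (hSnb.trans (nb_mono_left G hS0K _))
      have h2 : u ∈ nb G ((d + 1) * K + K + 1) {v} := nbr_mono G h1 hu'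
      have h3 := mem_nb_singleton_symm G h2
      have h4 : v ∈ nb G ((d + 1) * K + K + 1) (nb G 1 Z) :=
        nb_mono G (by simpa [nb] using hu) _ h3
      rw [← nb_add] at h4
      rw [show (d + 2) * K + 2 = (d + 1) * K + K + 1 + 1 by ring]
      exact h4
    obtain ⟨g1, g2⟩ := good_union G hZs hZc hZ's hZ'sc hdisj
    have hZZ' : Disjoint Z Z' := hdisj.mono (subset_nbr G Z) (subset_nbr G Z')
    have hcardU : (Z ∪ Z').card = Z.card + Z'.card := Finset.card_union_of_disjoint hZZ'
    have hpos : 1 ≤ Z'.card := Finset.card_pos.mpr ⟨v, hvZ'⟩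
    have hnot : T < Z.card + Z'.card := by
      by_contra hcon
      push Not at hcon
      have hmem : Z ∪ Z' ∈ F := by
        simp only [F, Finset.mem_filter, Finset.mem_powerset]
        refine ⟨Finset.union_subset hZA ?_, g1, g2, by omega⟩
        intro x hx
        rw [Finset.mem_compl]
        intro hxA
        exact Finset.disjoint_left.mp hAZ' hxA hx
      have := hmax _ hmem
      omega
    refine ⟨A ∪ Z, hZs, hZc, ?_⟩
    unfold imb
    rw [hcardAZc, hcardAZ]
    push_cast
    rw [abs_of_nonneg (by omega)]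
    have : (Z'.card : ℤ) ≤ (d + 1) * K := by exact_mod_cast hZ'c
    omega
  · exfalso
    push Not at hfar
    have h1 : P ⊆ A ∪ nb G ((d + 2) * K + 2) Z := by
      intro v hv
      by_cases hvA : v ∈ A
      · exact Finset.mem_union_left _ hvA
      · exact Finset.mem_union_right _ (hfar v hv hvA)
    have h2 : P.card ≤ A.card + (d + 1) ^ ((d + 2) * K + 2) * Z.card :=
      (Finset.card_le_card h1).trans ((Finset.card_union_le _ _).trans
        (by gcongr; exact card_nb_le G hd _ _))
    have h3 : 2 * Z.card ≤ D := by omega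
    have h4 : Fintype.card V = A.card + Aᶜ.card := by
      rw [Finset.card_add_card_compl]
    have h5 : 2 * ((d + 1) ^ ((d + 2) * K + 2) * Z.card)
        ≤ (d + 1) ^ ((d + 2) * K + 2) * D := by
      calc 2 * ((d + 1) ^ ((d + 2) * K + 2) * Z.card)
          = (d + 1) ^ ((d + 2) * K + 2) * (2 * Z.card) := by ring
        _ ≤ _ := by gcongr
    omega

end H97.Int
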