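import Pool.Agent.H97.Int.LowDegree

set_option autoImplicit false
set_option linter.unusedSectionVars false

/-!
Internal partitions of 3- and 4-regular graphs with bounded imbalance and at most
one (two) unsatisfied vertices.
-/

namespace H97.Int

open Finset

variable {V : Type*} [Fintype V] [DecidableEq V] (G : SimpleGraph V) [DecidableRel G.Adj]

/-- Existence of a satisfied minimiser of `2 cut + s imb`. -/
theorem exists_optF {s : ℤ} (hs : s = 1 ∨ (s = 2 ∧ ∀ v, Even (G.degree v))) :
    ∃ A : Finset V, A.card ≤ Aᶜ.card ∧ Sat G A ∧ Sat G Aᶜ ∧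
      (∀ A' : Finset V, s * imb A + 2 * cut G A ≤ s * imb A' + 2 * cut G A') := by
  set n : ℤ := (Fintype.card V : ℤ) with hn
  have hn0 : 0 ≤ n := by rw [hn]; positivity
  set M : ℤ := 2 * n ^ 2 + 2 * n + 1 with hMdef
  have hM : 0 < M := by positivity
  obtain ⟨A1, -, hA1⟩ := Finset.exists_min_image (univ : Finset (Finset V)) (Phi G M s)
    ⟨∅, Finset.mem_univ _⟩
  have hmin1 : ∀ A', Phi G M s A1 ≤ Phi G M s A' := fun A' => hA1 A' (Finset.mem_univ _)
  obtain ⟨A, hcard, hmin⟩ : ∃ A : Finset V, A.card ≤ Aᶜ.card ∧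
      ∀ A', Phi G M s A ≤ Phi G M s A' := by
    rcases le_total A1.card A1ᶜ.card with h | h
    · exact ⟨A1, h, hmin1⟩
    · refine ⟨A1ᶜ, by rw [compl_compl]; exact h, fun A' => ?_⟩
      rw [Phi_compl]; exact hmin1 A'
  refine ⟨A, hcard, ?_, sat_compl_of_min G hM.le hs hmin, ?_⟩
  · have := sat_compl_of_min G hM.le hs (A := Aᶜ)
      (fun A' => by rw [Phi_compl]; exact hmin A')
    rwa [compl_compl] at this
  · intro A'
    have h1 := hmin A'
    unfold Phi at h1
    have h2 := cut_nonneg G A
    have h3 := cut_le G A'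
    have h8 : cut G A' ≤ n ^ 2 := by rw [hn]; exact h3
    have h7 : 2 * n ^ 2 < M := by rw [hMdef]; linarith
    by_contra hcon
    push Not at hcon
    have h5 : 1 ≤ (s * imb A + 2 * cut G A) - (s * imb A' + 2 * cut G A') := by omega
    have h6 : M * 1 ≤ M * ((s * imb A + 2 * cut G A) - (s * imb A' + 2 * cut G A')) :=
      mul_le_mul_of_nonneg_left h5 hM.le
    nlinarith

lemma imb_union {A X : Finset V} (h : Disjoint A X) :
    imb (A ∪ X) = |((Aᶜ.card : ℤ) - A.card) - 2 * X.card| := by
  have hc : ((A ∪ X).card : ℤ) = A.card + X.card := by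
    rw [Finset.card_union_of_disjoint h]; push_cast; ring
  unfold imb
  rw [card_compl_int, card_compl_int, hc]
  congr 1
  ring

section

variable {A : Finset V} {s : ℤ}

lemma low1 (hAc : A.card ≤ Aᶜ.card)
    (hF : ∀ A' : Finset V, s * imb A + 2 * cut G A ≤ s * imb A' + 2 * cut G A')
    {X : Finset V} (hX : Disjoint A X) (hle : 2 * (X.card : ℤ) ≤ (Aᶜ.card : ℤ) - A.card) :
    s * X.card ≤ cut G (A ∪ X) - cut G A := by
  have h1 := hF (A ∪ X)
  have hAc' : (A.card : ℤ) ≤ Aᶜ.card := by exact_mod_cast hAc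
  rw [imb_union hX, abs_of_nonneg (by linarith)] at h1
  unfold imb at h1
  rw [abs_of_nonneg (by linarith)] at h1
  linarith

lemma low2 (hs : 0 ≤ s) (hAc : A.card ≤ Aᶜ.card)
    (hF : ∀ A' : Finset V, s * imb A + 2 * cut G A ≤ s * imb A' + 2 * cut G A')
    {X : Finset V} (hX : Disjoint A X) (hle : 2 * (X.card : ℤ) ≤ (Aᶜ.card : ℤ) - A.card + 1) :
    s * (X.card - 1) ≤ cut G (A ∪ X) - cut G A := by
  have h1 := hF (A ∪ X)
  have hAc' : (A.card : ℤ) ≤ Aᶜ.card := by exact_mod_cast hAc
  rw [imb_union hX] at h1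
  have h2 : |((Aᶜ.card : ℤ) - A.card) - 2 * X.card| ≤ ((Aᶜ.card : ℤ) - A.card) - 2 * X.card + 2 := by
    rw [abs_le]; constructor <;> linarith
  have h3 := mul_le_mul_of_nonneg_left h2 hs
  unfold imb at h1
  rw [abs_of_nonneg (a := (Aᶜ.card : ℤ) - A.card) (by linarith)] at h1
  linarith

/-- `i` vertices added, one possible defect `t` -/
def St0 (A : Finset V) (s : ℤ) (i : ℕ) : Prop :=
  ∃ (X : Finset V) (t : V), Disjoint A X ∧ X.card = i ∧ cut G (A ∪ X) = cut G A + s * i ∧
    (∀ a ∈ A ∪ X, a ≠ t → 2 ≤ nin G a (A ∪ X)) ∧ (t ∈ A ∪ X → 1 ≤ nin G t (A ∪ X))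

/-- `i` vertices added, two possible defects `t`, `t'` -/
def St2 (A : Finset V) (s : ℤ) (i : ℕ) : Prop :=
  ∃ (X : Finset V) (t t' : V), Disjoint A X ∧ X.card = i ∧
    cut G (A ∪ X) = cut G A + s * i + 2 ∧
    (∀ a ∈ A ∪ X, a ≠ t → a ≠ t' → 2 ≤ nin G a (A ∪ X)) ∧ t ∈ A ∪ X ∧ t' ∈ A ∪ X ∧
    nin G t' (A ∪ X) ≤ 1 ∧ (t ≠ t' → 1 ≤ nin G t (A ∪ X) ∧ 1 ≤ nin G t' (A ∪ X)) ∧
    ∀ u ∉ A ∪ X, nin G u (A ∪ X) ≤ 1

lemma nin_insert {Z : Finset V} {y : V} (hy : y ∉ Z) (v : V) :
    nin G v (insert y Z) = nin G v Z + adj G v y := by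
  rw [Finset.insert_eq, Finset.union_comm, nin_union G (by simpa using hy)]
  congr 1
  simp [nin, E]

lemma adj_eq_one {u v : V} (h : G.Adj u v) : adj G u v = 1 := by
  unfold adj; simp [h]

lemma one_le_nin {Z : Finset V} {u v : V} (hv : v ∈ Z) (h : G.Adj u v) : 1 ≤ nin G u Z := by
  by_contra hcon
  have h0 : nin G u Z = 0 := le_antisymm (by omega) (nin_nonneg G _ _)
  rw [nin_eq_zero_iff] at h0
  exact h0 v hv h

lemma exists_adj {Z : Finset V} {u : V} (h : 0 < nin G u Z) : ∃ v ∈ Z, G.Adj u v := by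
  by_contra hcon
  push Not at hcon
  have := (nin_eq_zero_iff G u Z).mpr hcon
  omega

lemma St0_step (hreg : ∀ v, (G.degree v : ℤ) = s + 2) (hs : 1 ≤ s)
    (hlow : ∀ X : Finset V, Disjoint A X → 2 * (X.card : ℤ) ≤ (Aᶜ.card : ℤ) - A.card →
      s * X.card ≤ cut G (A ∪ X) - cut G A)
    {i : ℕ} (hi : 2 * ((i : ℤ) + 1) ≤ (Aᶜ.card : ℤ) - A.card) (hpos : 0 < cut G A + s * i)
    (h : St0 G A s i) : St0 G A s (i + 1) := by
  obtain ⟨X, t, hAX, hXi, hcut, hsat, ht⟩ := h
  set Z := A ∪ X with hZ
  have key : ∃ y, y ∉ Z ∧ 1 ≤ nin G y Z ∧ ∀ a ∈ Z, 2 ≤ nin G a (insert y Z) := by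
    by_cases h1 : t ∈ Z ∧ nin G t Z = 1
    · obtain ⟨htZ, ht1⟩ := h1
      have h2 := nin_add_compl G t Z
      rw [hreg t, ht1] at h2
      obtain ⟨y, hy, hty⟩ := exists_adj G (Z := Zᶜ) (u := t) (by omega)
      have hyZ : y ∉ Z := by simpa using hy
      refine ⟨y, hyZ, one_le_nin G htZ hty.symm, ?_⟩
      intro a ha
      rw [nin_insert G hyZ]
      by_cases hat : a = t
      · rw [hat, ht1, adj_eq_one G hty]; norm_num
      · have := hsat a ha hat
        have := adj_nonneg G a y
        omega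
    · have hall : ∀ a ∈ Z, 2 ≤ nin G a Z := by
        intro a ha
        by_cases hat : a = t
        · have h2 := ht (hat ▸ ha)
          have h3 : nin G t Z ≠ 1 := fun h => h1 ⟨hat ▸ ha, h⟩
          rw [hat]; omega
        · exact hsat a ha hat
      have hcutZ : 0 < cut G Z := by rw [hcut]; exact hpos
      have : ∃ a ∈ Z, 0 < nin G a Zᶜ := by
        by_contra hcon
        push Not at hcon
        have h2 : cut G Z ≤ 0 := by
          unfold cut
          rw [E_eq_sum_nin]
          exact Finset.sum_nonpos hcon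
        omega
      obtain ⟨a, ha, hpos'⟩ := this
      obtain ⟨y, hy, hay⟩ := exists_adj G hpos'
      have hyZ : y ∉ Z := by simpa using hy
      refine ⟨y, hyZ, one_le_nin G ha hay.symm, ?_⟩
      intro b hb
      have := hall b hb
      rw [nin_insert G hyZ]
      have := adj_nonneg G b y
      omega
  obtain ⟨y, hyZ, hy1, hall⟩ := key
  have hyA : y ∉ A := fun h => hyZ (Finset.mem_union_left _ h)
  have hyX : y ∉ X := fun h => hyZ (Finset.mem_union_right _ h)
  have hdisj : Disjoint A (insert y X) := by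
    rw [Finset.disjoint_insert_right]; exact ⟨hyA, hAX⟩
  have hcard : (insert y X).card = i + 1 := by
    rw [Finset.card_insert_of_notMem hyX, hXi]
  have hunion : A ∪ insert y X = insert y Z := by rw [hZ, Finset.union_insert]
  have hl := hlow (insert y X) hdisj (by rw [hcard]; push_cast; linarith)
  have hyc := nin_add_compl G y Z
  rw [hreg y] at hyc
  rw [hunion, cut_insert' G hyZ, hcard, hcut] at hl
  push_cast at hl
  have hy2 : nin G y Z = 1 := by
    have : s * ((i : ℤ) + 1) = s * i + s := by ring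
    rw [this] at hl
    omega
  refine ⟨insert y X, y, hdisj, hcard, ?_, ?_, ?_⟩
  · rw [hunion, cut_insert' G hyZ, hcut]
    push_cast
    have : s * ((i : ℤ) + 1) = s * i + s := by ring
    rw [this]
    omega
  · rw [hunion]
    intro a ha hay
    exact hall a (Finset.mem_of_mem_insert_of_ne ha hay)
  · rw [hunion]
    intro _
    rw [nin_insert G hyZ, hy2]
    have := adj_nonneg G y y
    omega

lemma St2_step (hreg : ∀ v, (G.degree v : ℤ) = s + 2) (hs : 1 ≤ s)
    {i : ℕ} (h : St2 G A s i) : St2 G A s (i + 1) ∨ St0 G A s (i + 2) := by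
  obtain ⟨X, t, t', hAX, hXi, hcut, hsat, htZ, ht'Z, ht'1, htt', hI⟩ := h
  set Z := A ∪ X with hZ
  have h2 := nin_add_compl G t' Z
  rw [hreg t'] at h2
  obtain ⟨y, hy, hty⟩ := exists_adj G (Z := Zᶜ) (u := t') (by omega)
  have hyZ : y ∉ Z := by simpa using hy
  have hyA : y ∉ A := fun h => hyZ (Finset.mem_union_left _ h)
  have hyX : y ∉ X := fun h => hyZ (Finset.mem_union_right _ h)
  have hdisj : Disjoint A (insert y X) := by
    rw [Finset.disjoint_insert_right]; exact ⟨hyA, hAX⟩
  have hcard : (insert y X).card = i + 1 := by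
    rw [Finset.card_insert_of_notMem hyX, hXi]
  have hunion : A ∪ insert y X = insert y Z := by rw [hZ, Finset.union_insert]
  have hy1 : nin G y Z = 1 := le_antisymm (hI y hyZ) (one_le_nin G ht'Z hty.symm)
  have hyc := nin_add_compl G y Z
  rw [hreg y, hy1] at hyc
  have hcut' : cut G (insert y Z) = cut G A + s * (i + 1) + 2 := by
    rw [cut_insert' G hyZ, hcut, hy1]
    have : s * ((i : ℤ) + 1) = s * i + s := by ring
    rw [this]
    omega
  have hty' : t ≠ y := fun h => hyZ (h ▸ htZ)
  have ht'y : t' ≠ y := fun h => hyZ (h ▸ ht'Z)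
  have hone : 1 ≤ nin G t (insert y Z) := by
    by_cases h3 : t = t'
    · rw [h3]; exact one_le_nin G (Finset.mem_insert_self _ _) hty
    · exact (htt' h3).1.trans (nin_mono G (Finset.subset_insert _ _) t)
  have hsat' : ∀ a ∈ Z, a ≠ t → 2 ≤ nin G a (insert y Z) := by
    intro a ha hat
    rw [nin_insert G hyZ]
    by_cases hat' : a = t'
    · have h4 := (htt' (by rw [← hat']; exact hat.symm)).2
      rw [hat', adj_eq_one G hty]
      omega
    · have := hsat a ha hat hat'
      have := adj_nonneg G a y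
      omega
  have hyy : adj G y y = 0 := adj_self G y
  by_cases hI' : ∀ u ∉ insert y Z, nin G u (insert y Z) ≤ 1
  · left
    refine ⟨insert y X, t, y, hdisj, hcard, ?_, ?_, ?_, ?_, ?_, ?_, ?_⟩
    · rw [hunion, hcut']; push_cast; ring
    · rw [hunion]
      intro a ha hat hay
      exact hsat' a (Finset.mem_of_mem_insert_of_ne ha hay) hat
    · rw [hunion]; exact Finset.mem_insert_of_mem htZ
    · rw [hunion]; exact Finset.mem_insert_self _ _
    · rw [hunion, nin_insert G hyZ, hyy, hy1]; norm_num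
    · rw [hunion]
      intro _
      refine ⟨hone, ?_⟩
      rw [nin_insert G hyZ, hyy, hy1]; norm_num
    · rw [hunion]; exact hI'
  · right
    push Not at hI'
    obtain ⟨u, huZ', hu⟩ := hI'
    have huZ : u ∉ Z := fun h => huZ' (Finset.mem_insert_of_mem h)
    have huy : u ≠ y := fun h => huZ' (h ▸ Finset.mem_insert_self _ _)
    have hu' := hu
    rw [nin_insert G hyZ] at hu'
    have h5 := adj_le_one G u y
    have h6 := hI u huZ
    have hadj1 : adj G u y = 1 := by omega
    have hnin1 : nin G u Z = 1 := by omega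
    have hnin2 : nin G u (insert y Z) = 2 := by rw [nin_insert G hyZ]; omega
    have huA : u ∉ A := fun h => huZ (Finset.mem_union_left _ h)
    have huX : u ∉ insert y X := by
      intro h
      rcases Finset.mem_insert.mp h with h | h
      · exact huy h
      · exact huZ (Finset.mem_union_right _ h)
    have hdisj2 : Disjoint A (insert u (insert y X)) := by
      rw [Finset.disjoint_insert_right]; exact ⟨huA, hdisj⟩
    have hunion2 : A ∪ insert u (insert y X) = insert u (insert y Z) := by
      rw [Finset.union_insert, hunion]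
    have huc := nin_add_compl G u (insert y Z)
    rw [hreg u, hnin2] at huc
    refine ⟨insert u (insert y X), t, hdisj2, ?_, ?_, ?_, ?_⟩
    · rw [Finset.card_insert_of_notMem huX, hcard]
    · rw [hunion2, cut_insert' G huZ', hcut', hnin2]
      push_cast
      have e1 : s * ((i : ℤ) + 1) = s * i + s := by ring
      have e2 : s * ((i : ℤ) + 2) = s * i + s + s := by ring
      rw [e1, e2]
      omega
    · rw [hunion2]
      intro a ha hat
      rw [nin_insert G huZ']
      rcases Finset.mem_insert.mp ha with h | h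
      · rw [h, adj_self, hnin2]; norm_num
      · rcases Finset.mem_insert.mp h with h' | h'
        · rw [h', adj_symm G y u, hadj1, nin_insert G hyZ, hyy, hy1]; norm_num
        · have := hsat' a h' hat
          have := adj_nonneg G a u
          omega
    · rw [hunion2]
      intro _
      exact hone.trans (nin_mono G (Finset.subset_insert _ _) t)

lemma St2_one (hreg : ∀ v, (G.degree v : ℤ) = s + 2) (h0 : cut G A = 0)
    {b : V} (hb : b ∉ A) (hAsat : ∀ a ∈ A, 2 ≤ nin G a A) : St2 G A s 1 := by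
  have hzero : ∀ u ∉ A, nin G u A = 0 := by
    intro u hu
    have h1 : E G Aᶜ A = 0 := by rw [E_symm]; exact h0
    rw [E_eq_sum_nin] at h1
    exact (Finset.sum_eq_zero_iff_of_nonneg (fun v _ => nin_nonneg G v A)).mp h1 u (by simpa using hu)
  have hunion : A ∪ {b} = insert b A := by rw [Finset.union_comm, ← Finset.insert_eq]
  have hbc := nin_add_compl G b A
  rw [hreg b, hzero b hb] at hbc
  refine ⟨{b}, b, b, by simpa using hb, by simp, ?_, ?_, ?_, ?_, ?_, ?_, ?_⟩
  · rw [hunion, cut_insert' G hb, hzero b hb, h0]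
    push_cast
    omega
  · rw [hunion]
    intro a ha hab _
    have h1 : a ∈ A := Finset.mem_of_mem_insert_of_ne ha hab
    exact (hAsat a h1).trans (nin_mono G (Finset.subset_insert _ _) a)
  · rw [hunion]; exact Finset.mem_insert_self _ _
  · rw [hunion]; exact Finset.mem_insert_self _ _
  · rw [hunion, nin_insert G hb, hzero b hb, adj_self]; norm_num
  · intro h; exact absurd rfl h
  · rw [hunion]
    intro u hu
    have huA : u ∉ A := fun h => hu (Finset.mem_insert_of_mem h)
    rw [nin_insert G hb, hzero u huA]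
    have := adj_le_one G u b
    omega

/-- the conclusion: `Z` nearly balanced and satisfied up to at most `k` vertices -/
def Good (k : ℕ) (c : ℤ) : Prop :=
  ∃ Z S : Finset V, Z.Nonempty ∧ Zᶜ.Nonempty ∧ S.card ≤ k ∧ |(Z.card : ℤ) - Zᶜ.card| ≤ c ∧
    ∀ v ∉ S, (v ∈ Z → nin G v Zᶜ ≤ nin G v Z) ∧ (v ∉ Z → nin G v Z ≤ nin G v Zᶜ)

lemma good_St0 (hreg : ∀ v, (G.degree v : ℤ) = s + 2) (hs : s = 1 ∨ s = 2)
    (hAc : A.card ≤ Aᶜ.card)
    (hF : ∀ A' : Finset V, s * imb A + 2 * cut G A ≤ s * imb A' + 2 * cut G A')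
    {i : ℕ} (hi : 2 * (i : ℤ) + 1 ≤ (Aᶜ.card : ℤ) - A.card) (hne : 0 < A.card + i)
    (h : St0 G A s i) : Good G 1 ((Aᶜ.card : ℤ) - A.card - 2 * i) := by
  obtain ⟨X, t, hAX, hXi, hcut, hsat, ht⟩ := h
  have hcardZ : (A ∪ X).card = A.card + i := by
    rw [Finset.card_union_of_disjoint hAX, hXi]
  have hcZ := card_compl_int (A ∪ X)
  have hcA := card_compl_int A
  refine ⟨A ∪ X, {t}, ?_, ?_, by simp, ?_, ?_⟩
  · rw [← Finset.card_pos]; omega
  · rw [← Finset.card_pos]; omega
  · rw [abs_le]; constructor <;> omega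
  · intro v hv
    have hvt : v ≠ t := by simpa using hv
    have hdeg := nin_add_compl G v (A ∪ X)
    rw [hreg v] at hdeg
    constructor
    · intro hvZ
      have := hsat v hvZ hvt
      omega
    · intro hvZ
      by_contra hcon
      push Not at hcon
      have hvA : v ∉ A := fun h => hvZ (Finset.mem_union_left _ h)
      have hvX : v ∉ X := fun h => hvZ (Finset.mem_union_right _ h)
      have hdisj : Disjoint A (insert v X) := by
        rw [Finset.disjoint_insert_right]; exact ⟨hvA, hAX⟩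
      have hcard : (insert v X).card = i + 1 := by
        rw [Finset.card_insert_of_notMem hvX, hXi]
      have hl := low2 G (by omega) hAc hF hdisj (by rw [hcard]; push_cast; linarith)
      rw [Finset.union_insert, cut_insert' G hvZ, hcut, hcard] at hl
      push_cast at hl
      have e1 : s * ((i : ℤ) + 1 - 1) = s * i := by ring
      rw [e1] at hl
      omega

lemma good_St2 (hreg : ∀ v, (G.degree v : ℤ) = s + 2) (hs : s = 1 ∨ s = 2)
    {i : ℕ} (hi : 2 * (i : ℤ) + 1 ≤ (Aᶜ.card : ℤ) - A.card) (hne : 0 < A.card + i)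
    (h : St2 G A s i) : Good G 2 ((Aᶜ.card : ℤ) - A.card - 2 * i) := by
  obtain ⟨X, t, t', hAX, hXi, hcut, hsat, htZ, ht'Z, ht'1, htt', hI⟩ := h
  have hcardZ : (A ∪ X).card = A.card + i := by
    rw [Finset.card_union_of_disjoint hAX, hXi]
  have hcZ := card_compl_int (A ∪ X)
  have hcA := card_compl_int A
  refine ⟨A ∪ X, {t, t'}, ?_, ?_, Finset.card_le_two, ?_, ?_⟩
  · rw [← Finset.card_pos]; omega
  · rw [← Finset.card_pos]; omega
  · rw [abs_le]; constructor <;> omega
  · intro v hv
    simp only [Finset.mem_insert, Finset.mem_singleton, not_or] at hv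
    have hdeg := nin_add_compl G v (A ∪ X)
    rw [hreg v] at hdeg
    constructor
    · intro hvZ
      have := hsat v hvZ hv.1 hv.2
      omega
    · intro hvZ
      have := hI v hvZ
      omega

lemma Good.mono {k k' : ℕ} {c c' : ℤ} (hk : k ≤ k') (hc : c ≤ c') (h : Good G k c) :
    Good G k' c' := by
  obtain ⟨Z, S, h1, h2, h3, h4, h5⟩ := h
  exact ⟨Z, S, h1, h2, h3.trans hk, h4.trans hc, h5⟩

/-- all states reachable from a part `A` with a nonempty boundary -/
lemma St0_all (hreg : ∀ v, (G.degree v : ℤ) = s + 2) (hs : 1 ≤ s)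
    (hlow : ∀ X : Finset V, Disjoint A X → 2 * (X.card : ℤ) ≤ (Aᶜ.card : ℤ) - A.card →
      s * X.card ≤ cut G (A ∪ X) - cut G A)
    (hA : ∀ a ∈ A, 2 ≤ nin G a A) (hpos : 0 < cut G A) (t : V) :
    ∀ i : ℕ, 2 * (i : ℤ) ≤ (Aᶜ.card : ℤ) - A.card → St0 G A s i := by
  intro i
  induction i with
  | zero =>
    intro _
    refine ⟨∅, t, by simp, by simp, by simp, ?_, ?_⟩
    · intro a ha _
      simp only [Finset.union_empty] at ha ⊢
      exact hA a ha
    · intro ht
      simp only [Finset.union_empty] at ht ⊢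
      have := hA t ht
      omega
  | succ i ih =>
    intro hi
    push_cast at hi
    refine St0_step G hreg hs hlow hi ?_ (ih (by linarith))
    have : 0 ≤ s * (i : ℤ) := by positivity
    omega

/-- all states reachable from a part `A` with an empty boundary -/
lemma P_all (hreg : ∀ v, (G.degree v : ℤ) = s + 2) (hs : 1 ≤ s)
    (hlow : ∀ X : Finset V, Disjoint A X → 2 * (X.card : ℤ) ≤ (Aᶜ.card : ℤ) - A.card →
      s * X.card ≤ cut G (A ∪ X) - cut G A)
    (hA : ∀ a ∈ A, 2 ≤ nin G a A) (h0 : cut G A = 0) {b : V} (hb : b ∉ A) :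
    ∀ i : ℕ, 2 * ((i : ℤ) + 1) ≤ (Aᶜ.card : ℤ) - A.card →
      St2 G A s (i + 1) ∨ St0 G A s (i + 1) ∨ St0 G A s (i + 2) := by
  intro i
  induction i with
  | zero =>
    intro _
    exact Or.inl (St2_one G hreg h0 hb hA)
  | succ i ih =>
    intro hi
    push_cast at hi
    rcases ih (by linarith) with h | h | h
    · rcases St2_step G hreg hs h with h' | h'
      · exact Or.inl h'
      · exact Or.inr (Or.inr h')
    · refine Or.inr (Or.inl (St0_step G hreg hs hlow ?_ ?_ h))
      · push_cast; linarith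
      · rw [h0]; push_cast; nlinarith
    · exact Or.inr (Or.inl h)

end

/-- One defect if the optimal part has a boundary, two defects in general. -/
theorem defects {d : ℕ} (hd : d = 3 ∨ d = 4) (hreg : ∀ v, G.degree v = d) :
    (4 < Fintype.card V → Good G 2 4) ∧
    (G.Connected → 8 * Nat.log 2 (Fintype.card V) + 13 < Fintype.card V → Good G 1 2) := by
  obtain ⟨s, hsd, hs⟩ : ∃ s : ℤ, s = d - 2 ∧
      (s = 1 ∨ (s = 2 ∧ ∀ v, Even (G.degree v))) := by
    rcases hd with rfl | rfl
    · exact ⟨1, by norm_num, Or.inl rfl⟩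
    · exact ⟨2, by norm_num, Or.inr ⟨rfl, fun v => by rw [hreg v]; decide⟩⟩
  have hs1 : 1 ≤ s := by rcases hs with h | ⟨h, _⟩ <;> omega
  have hs12 : s = 1 ∨ s = 2 := by
    rcases hs with h | ⟨h, _⟩
    · exact Or.inl h
    · exact Or.inr h
  have hreg' : ∀ v, (G.degree v : ℤ) = s + 2 := by
    intro v; rw [hreg v, hsd]; ring
  obtain ⟨A, hAc, hsA, hsAc, hF⟩ := exists_optF G hs
  have hlow : ∀ X : Finset V, Disjoint A X → 2 * (X.card : ℤ) ≤ (Aᶜ.card : ℤ) - A.card →
      s * X.card ≤ cut G (A ∪ X) - cut G A := fun X hX hle => low1 G hAc hF hX hle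
  have hA2 : ∀ a ∈ A, 2 ≤ nin G a A := by
    intro a ha
    have h1 := hsA a ha
    have h2 := nin_add_compl G a A
    rw [hreg' a] at h2
    omega
  have hcA := card_compl_int A
  have hcA' := Finset.card_add_card_compl A
  -- the trivial case of small imbalance
  have htriv : ∀ c : ℤ, (Aᶜ.card : ℤ) - A.card ≤ c → 0 < A.card → Good G 0 c := by
    intro c hc hpos
    refine ⟨A, ∅, by rwa [← Finset.card_pos], by rw [← Finset.card_pos]; omega, by simp, ?_, ?_⟩
    · rw [abs_le]; constructor <;> omega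
    · intro v _
      refine ⟨fun hv => hsA v hv, fun hv => ?_⟩
      have := hsAc v (by simpa using hv)
      rwa [compl_compl] at this
  -- the case of a nonempty boundary
  have hbd : 0 < cut G A → Good G 1 2 := by
    intro hpos
    have hA0 : 0 < A.card := by
      rcases Nat.eq_zero_or_pos A.card with h | h
      · rw [Finset.card_eq_zero] at h
        rw [h, cut_empty] at hpos
        omega
      · exact h
    by_cases hD : (Aᶜ.card : ℤ) - A.card ≤ 2
    · exact (htriv 2 hD hA0).mono G (by norm_num) le_rfl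
    · push Not at hD
      obtain ⟨t, -⟩ := Finset.card_pos.mp hA0
      obtain ⟨j, hj⟩ : ∃ j : ℕ, 2 * (j : ℤ) + 1 ≤ (Aᶜ.card : ℤ) - A.card ∧
          (Aᶜ.card : ℤ) - A.card - 2 * j ≤ 2 := by
        refine ⟨(Aᶜ.card - A.card + 1) / 2 - 1, ?_⟩
        omega
      have h1 := St0_all G hreg' hs1 hlow hA2 hpos t j (by linarith)
      exact (good_St0 G hreg' hs12 hAc hF hj.1 (by omega) h1).mono G le_rfl hj.2
  constructor
  · intro hn
    rcases (cut_nonneg G A).lt_or_eq with hpos | h0
    · exact (hbd hpos).mono G (by norm_num) (by norm_num)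
    · by_cases hD : (Aᶜ.card : ℤ) - A.card ≤ 4
      · exact (htriv 4 hD (by omega)).mono G (by norm_num) le_rfl
      · push Not at hD
        obtain ⟨b, hb⟩ : Aᶜ.Nonempty := by rw [← Finset.card_pos]; omega
        have hbA : b ∉ A := by simpa using hb
        obtain ⟨j, hj1, hj2, hj3⟩ : ∃ j : ℕ, 2 * ((j : ℤ) + 1) ≤ (Aᶜ.card : ℤ) - A.card ∧
            2 * ((j : ℤ) + 2) + 1 ≤ (Aᶜ.card : ℤ) - A.card ∧
            (Aᶜ.card : ℤ) - A.card - 2 * (j + 1) ≤ 4 := by
          refine ⟨(Aᶜ.card - A.card + 1) / 2 - 3, ?_⟩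
          omega
        rcases P_all G hreg' hs1 hlow hA2 h0.symm hbA j hj1 with h | h | h
        · exact (good_St2 G hreg' hs12 (by push_cast; linarith) (by omega) h).mono G le_rfl
            (by push_cast; linarith)
        · exact (good_St0 G hreg' hs12 hAc hF (by push_cast; linarith) (by omega) h).mono G
            (by norm_num) (by push_cast; linarith)
        · exact (good_St0 G hreg' hs12 hAc hF (by push_cast; linarith) (by omega) h).mono G
            (by norm_num) (by push_cast; linarith)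
  · intro hconn hn
    apply hbd
    -- the part `A` is not empty
    have hA0 : A.Nonempty := by
      by_contra hcon
      rw [Finset.not_nonempty_iff_eq_empty] at hcon
      have hA0c : A.card = 0 := by rw [hcon]; simp
      set r := Nat.log 2 (Fintype.card V) + 1 with hr
      have hlt : Fintype.card V < 2 ^ r := by
        rw [hr]; exact Nat.lt_pow_succ_log_self (by norm_num) _
      have hAcne : Aᶜ.Nonempty := by
        rw [← Finset.card_pos]; omega
      obtain ⟨X, hXA, hXc, hXp⟩ := exists_dense G (A := A) hlt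
        (fun v => by rw [hreg v]; omega) hAcne
      have h5 := hlow X hXA (by omega)
      rw [cut_union_regular G hXA hreg] at h5
      unfold psi at hXp
      rw [hsd] at h5
      nlinarith
    have hAcne : Aᶜ.Nonempty := by
      rw [← Finset.card_pos]
      have := Finset.card_pos.mpr hA0
      omega
    rcases (cut_nonneg G A).lt_or_eq with hpos | h0
    · exact hpos
    · exfalso
      obtain ⟨a, ha⟩ := hA0
      obtain ⟨b, hb⟩ := hAcne
      have hcl : ∀ u v : V, u ∈ A → G.Adj u v → v ∈ A := by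
        intro u v hu huv
        by_contra hv
        have h1 : E G A Aᶜ = 0 := h0.symm
        rw [E_eq_sum_nin] at h1
        have h2 := (Finset.sum_eq_zero_iff_of_nonneg (fun v _ => nin_nonneg G v Aᶜ)).mp h1 u hu
        have h3 := one_le_nin G (Z := Aᶜ) (by simpa using hv) huv
        omega
      have hreach : ∀ v : V, G.Reachable a v → v ∈ A := by
        rintro v ⟨w⟩
        induction w with
        | nil => exact ha
        | cons h _ ih => exact ih (hcl _ _ ha h)
      have := hreach b (hconn.preconnected a b)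
      simp at hb
      exact hb this

end H97.Int
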