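import Pool.Agent.H97.Int.Opt
import Pool.Agent.H97.Int.Core

set_option autoImplicit false
set_option linter.unusedSectionVars false

namespace H97.Int

open Finset
open scoped Classical symmDiff

variable {V : Type*} [Fintype V] [DecidableEq V] (G : SimpleGraph V) [DecidableRel G.Adj]

/-- `v` has more neighbours in the other part than in its own part -/
def Uns (A : Finset V) (v : V) : Prop :=
  (v ∈ A ∧ nin G v A < nin G v Aᶜ) ∨ (v ∉ A ∧ nin G v Aᶜ < nin G v A)

lemma uns_compl (A : Finset V) (v : V) : Uns G Aᶜ v ↔ Uns G A v := by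
  unfold Uns
  rw [compl_compl, Finset.mem_compl, not_not]
  exact or_comm

lemma nin_congr {A A' : Finset V} {v : V} (h : ∀ u, G.Adj v u → (u ∈ A ↔ u ∈ A')) :
    nin G v A = nin G v A' := by
  rw [nin_eq, nin_eq]
  congr 2
  ext u
  simp only [Finset.mem_inter, SimpleGraph.mem_neighborFinset]
  constructor
  · rintro ⟨h1, h2⟩; exact ⟨h1, (h u h1).1 h2⟩
  · rintro ⟨h1, h2⟩; exact ⟨h1, (h u h1).2 h2⟩

lemma uns_congr {A A' : Finset V} {v : V} (hv : v ∈ A ↔ v ∈ A')
    (h : ∀ u, G.Adj v u → (u ∈ A ↔ u ∈ A')) : Uns G A v ↔ Uns G A' v := by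
  have h1 := nin_congr G h
  have h2 : nin G v Aᶜ = nin G v A'ᶜ := nin_congr G (fun u hu => by simp [h u hu])
  unfold Uns
  rw [hv, h1, h2]

/-- flipping an unsatisfied vertex lowers the cut -/
lemma cut_flip {A : Finset V} {v : V} (h : Uns G A v) : cut G (A ∆ {v}) + 1 ≤ cut G A := by
  rcases h with ⟨hv, h⟩ | ⟨hv, h⟩
  · have h1 : A ∆ {v} = A.erase v := by
      ext u; simp only [Finset.mem_symmDiff, Finset.mem_singleton, Finset.mem_erase]
      constructor
      · rintro (⟨h1, h2⟩ | ⟨h1, h2⟩)
        · exact ⟨h2, h1⟩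
        · exact absurd (h1 ▸ hv) h2
      · rintro ⟨h1, h2⟩; exact Or.inl ⟨h2, h1⟩
    rw [h1]
    have h2 := cut_insert G (A := A.erase v) (v := v) (by simp)
    rw [Finset.insert_erase hv] at h2
    have h5 : nin G v A = nin G v (A.erase v) := by
      refine nin_congr G fun u hu => ?_
      rw [Finset.mem_erase]
      exact ⟨fun h => ⟨(G.ne_of_adj hu).symm, h⟩, fun h => h.2⟩
    rw [← h5] at h2
    omega
  · have h1 : A ∆ {v} = insert v A := by
      ext u; simp only [Finset.mem_symmDiff, Finset.mem_singleton, Finset.mem_insert]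
      constructor
      · rintro (⟨h1, h2⟩ | ⟨h1, h2⟩)
        · exact Or.inr h1
        · exact Or.inl h1
      · rintro (h1 | h1)
        · exact Or.inr ⟨h1, h1 ▸ hv⟩
        · refine Or.inl ⟨h1, fun h2 => hv (h2 ▸ h1)⟩
    rw [h1, cut_insert' G hv]
    omega

/-- the unsatisfied vertices of a class -/
noncomputable def flipS (C A : Finset V) : Finset V := C.filter fun v => Uns G A v

/-- flip the unsatisfied vertices of a class -/
noncomputable def upd (C A : Finset V) : Finset V := A ∆ flipS G C A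

lemma flipS_compl (C A : Finset V) : flipS G C Aᶜ = flipS G C A := by
  unfold flipS; congr 1; ext v; exact uns_compl G A v

lemma upd_compl (C A : Finset V) : upd G C Aᶜ = (upd G C A)ᶜ := by
  unfold upd; rw [flipS_compl]
  ext v; simp only [Finset.mem_symmDiff, Finset.mem_compl]; tauto

lemma mem_upd {C A : Finset V} {v : V} :
    v ∈ upd G C A ↔ (v ∈ A ∧ ¬ (v ∈ C ∧ Uns G A v)) ∨ ((v ∈ C ∧ Uns G A v) ∧ v ∉ A) := by
  unfold upd flipS; rw [Finset.mem_symmDiff, Finset.mem_filter]

lemma upd_congr {C A A' : Finset V} {v : V} (hv : v ∈ A ↔ v ∈ A')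
    (h : ∀ u, G.Adj v u → (u ∈ A ↔ u ∈ A')) : v ∈ upd G C A ↔ v ∈ upd G C A' := by
  rw [mem_upd, mem_upd, hv, uns_congr G hv h]

lemma cut_upd {C A : Finset V} (hC : ∀ u ∈ C, ∀ v ∈ C, ¬ G.Adj u v) :
    cut G (upd G C A) + (flipS G C A).card ≤ cut G A := by
  have key : ∀ X : Finset V, X ⊆ flipS G C A → cut G (A ∆ X) + X.card ≤ cut G A := by
    intro X
    induction X using Finset.induction_on with
    | empty =>
      intro _
      have : A ∆ (∅ : Finset V) = A := by ext; simp [Finset.mem_symmDiff]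
      rw [this]; simp
    | insert v X hv ih =>
      intro hX
      have hX' : X ⊆ flipS G C A := (Finset.subset_insert _ _).trans hX
      have hvF : v ∈ flipS G C A := hX (Finset.mem_insert_self _ _)
      have h1 := ih hX'
      have hvU : Uns G A v := (Finset.mem_filter.1 hvF).2
      have hvC : v ∈ C := (Finset.mem_filter.1 hvF).1
      have h2 : Uns G (A ∆ X) v := by
        refine (uns_congr G ?_ ?_).1 hvU
        · rw [Finset.mem_symmDiff]; tauto
        · intro u hu
          have huX : u ∉ X := fun h => hC v hvC u (Finset.mem_filter.1 (hX' h)).1 hu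
          rw [Finset.mem_symmDiff]; tauto
      have h3 := cut_flip G h2
      have h4 : A ∆ (insert v X) = (A ∆ X) ∆ {v} := by
        ext u
        simp only [Finset.mem_symmDiff, Finset.mem_insert, Finset.mem_singleton]
        by_cases huv : u = v
        · subst huv; tauto
        · tauto
      rw [h4, Finset.card_insert_of_notMem hv]
      push_cast
      linarith
  exact key _ subset_rfl

/-- the trajectory -/
noncomputable def traj (cl : ℕ → Finset V) (A : Finset V) : ℕ → Finset V
  | 0 => A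
  | t + 1 => upd G (cl t) (traj cl A t)

lemma traj_compl (cl : ℕ → Finset V) (A : Finset V) (t : ℕ) :
    traj G cl Aᶜ t = (traj G cl A t)ᶜ := by
  induction t with
  | zero => rfl
  | succ t ih => simp only [traj]; rw [ih, upd_compl]

lemma traj_local (cl : ℕ → Finset V) {A A' : Finset V} (t : ℕ) :
    ∀ v : V, (∀ u ∈ nb G t {v}, (u ∈ A ↔ u ∈ A')) →
      (v ∈ traj G cl A t ↔ v ∈ traj G cl A' t) := by
  induction t with
  | zero => intro v h; exact h v (by simp [nb])
  | succ t ih =>
    intro v h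
    simp only [traj]
    refine upd_congr G (ih v fun u hu => h u (subset_nbr G _ hu)) ?_
    intro w hw
    refine ih w fun u hu => h u ?_
    rw [nb_add]
    refine nb_mono G ?_ t hu
    intro x hx
    rw [Finset.mem_singleton] at hx
    subst hx
    simp only [nb, mem_nbr]
    exact Or.inr ⟨v, by simp, hw⟩

lemma cut_traj {cl : ℕ → Finset V} (hcl : ∀ t, ∀ u ∈ cl t, ∀ v ∈ cl t, ¬ G.Adj u v)
    (A : Finset V) (T : ℕ) :
    cut G (traj G cl A T) + ∑ t ∈ range T, ((flipS G (cl t) (traj G cl A t)).card : ℤ)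
      ≤ cut G A := by
  induction T with
  | zero => simp [traj]
  | succ T ih =>
    rw [Finset.sum_range_succ]
    have := cut_upd G (C := cl T) (A := traj G cl A T) (hcl T)
    simp only [traj]
    linarith

/-- unsatisfied vertices at the start of a sweep -/
lemma uns_sweep {d q : ℕ} (hd : ∀ v, G.degree v ≤ d) {cl : ℕ → Finset V} {k : ℕ}
    (hcov : ∀ v : V, ∃ t, k ≤ t ∧ t < k + q ∧ v ∈ cl t) (A : Finset V) :
    ((univ.filter fun v => Uns G (traj G cl A k) v).card : ℤ) ≤
      (d + 1) * ∑ t ∈ Finset.Ico k (k + q), ((flipS G (cl t) (traj G cl A t)).card : ℤ) := by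
  have hsub : (univ.filter fun v => Uns G (traj G cl A k) v) ⊆
      (Finset.Ico k (k + q)).biUnion fun t => nbr G (flipS G (cl t) (traj G cl A t)) := by
    intro v hv
    rw [Finset.mem_filter] at hv
    obtain ⟨T, hT1, hT2, hvT⟩ := hcov v
    by_contra hcon
    have hno : ∀ t, k ≤ t → t < k + q → ∀ u, (u = v ∨ G.Adj v u) →
        u ∉ flipS G (cl t) (traj G cl A t) := by
      intro t h1 h2 u hu hmem
      apply hcon
      rw [Finset.mem_biUnion]
      refine ⟨t, Finset.mem_Ico.2 ⟨h1, h2⟩, ?_⟩
      rw [mem_nbr]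
      rcases hu with rfl | hu
      · exact Or.inl hmem
      · exact Or.inr ⟨u, hmem, hu.symm⟩
    have hsame : ∀ s, k + s ≤ k + q → ∀ u, (u = v ∨ G.Adj v u) →
        (u ∈ traj G cl A (k + s) ↔ u ∈ traj G cl A k) := by
      intro s
      induction s with
      | zero => intro _ u _; rfl
      | succ s ih =>
        intro hs u hu
        have h1 := ih (by omega) u hu
        rw [← h1]
        have h2 := hno (k + s) (by omega) (by omega) u hu
        rw [← add_assoc]
        simp only [traj]
        rw [upd, Finset.mem_symmDiff]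
        tauto
    obtain ⟨s, rfl⟩ := Nat.exists_eq_add_of_le hT1
    have hU : Uns G (traj G cl A (k + s)) v := by
      refine (uns_congr G ?_ ?_).1 hv.2
      · exact (hsame s (by omega) v (Or.inl rfl)).symm
      · intro u hu; exact (hsame s (by omega) u (Or.inr hu)).symm
    exact hno (k + s) (by omega) hT2 v (Or.inl rfl) (Finset.mem_filter.2 ⟨hvT, hU⟩)
  have h1 : (univ.filter fun v => Uns G (traj G cl A k) v).card ≤
      ∑ t ∈ Finset.Ico k (k + q), (d + 1) * (flipS G (cl t) (traj G cl A t)).card := by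
    refine (Finset.card_le_card hsub).trans (Finset.card_biUnion_le.trans ?_)
    exact Finset.sum_le_sum fun t _ => card_nbr_le G hd _
  rw [← Finset.mul_sum] at h1
  exact_mod_cast h1

lemma sum_Ico_blocks (f : ℕ → ℤ) (q R : ℕ) :
    ∑ k ∈ range R, ∑ t ∈ Finset.Ico (k * q) (k * q + q), f t = ∑ t ∈ range (R * q), f t := by
  induction R with
  | zero => simp
  | succ R ih =>
    rw [Finset.sum_range_succ, ih, Finset.range_eq_Ico, Finset.range_eq_Ico,
      Finset.sum_Ico_consecutive _ (Nat.zero_le _) (Nat.le_add_right _ _)]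
    congr 2
    ring

lemma uns_total {d q : ℕ} (hd : ∀ v, G.degree v ≤ d) {cl : ℕ → Finset V}
    (hcl : ∀ t, ∀ u ∈ cl t, ∀ v ∈ cl t, ¬ G.Adj u v)
    (hcov : ∀ k, ∀ v : V, ∃ t, k * q ≤ t ∧ t < k * q + q ∧ v ∈ cl t) (A : Finset V) (R : ℕ) :
    ∑ k ∈ range R, ((univ.filter fun v => Uns G (traj G cl A (k * q)) v).card : ℤ) ≤
      (d + 1) * (d * Fintype.card V) := by
  have h1 : ∑ k ∈ range R, ((univ.filter fun v => Uns G (traj G cl A (k * q)) v).card : ℤ) ≤
      ∑ k ∈ range R, (d + 1) * ∑ t ∈ Finset.Ico (k * q) (k * q + q),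
        ((flipS G (cl t) (traj G cl A t)).card : ℤ) :=
    Finset.sum_le_sum fun k _ => uns_sweep G hd (hcov k) A
  rw [← Finset.mul_sum, sum_Ico_blocks] at h1
  refine h1.trans ?_
  have h2 := cut_traj G hcl A (R * q)
  have h3 := cut_nonneg G (traj G cl A (R * q))
  have h4 : cut G A ≤ d * Fintype.card V := by
    calc cut G A ≤ E G A univ := E_mono_right G (Finset.subset_univ _) A
      _ = ∑ v ∈ A, (G.degree v : ℤ) := E_univ_right G A
      _ ≤ ∑ _v ∈ A, (d : ℤ) := Finset.sum_le_sum fun v _ => by exact_mod_cast hd v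
      _ = d * A.card := by simp [mul_comm]
      _ ≤ d * Fintype.card V := by
        gcongr
        exact_mod_cast Finset.card_le_univ A
  have h5 : ∑ t ∈ range (R * q), ((flipS G (cl t) (traj G cl A t)).card : ℤ) ≤
      d * Fintype.card V := by linarith
  gcongr

end H97.Int
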