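import Pool.Agent.H97.Int.Core

set_option autoImplicit false
set_option linter.unusedSectionVars false

namespace H97.Int

open Finset

variable {V : Type*} [Fintype V] [DecidableEq V] (G : SimpleGraph V) [DecidableRel G.Adj]

/-- twice the excess of a set `X` (edges inside plus edges to `A` minus vertices) -/
def psi (A X : Finset V) : ℤ := E G X X + 2 * E G X A - 2 * X.card

lemma E_insert_left {X : Finset V} {v : V} (h : v ∉ X) (T : Finset V) :
    E G (insert v X) T = nin G v T + E G X T := by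
  unfold E nin E
  rw [Finset.sum_insert h]; simp

lemma E_insert_self {X : Finset V} {v : V} (h : v ∉ X) :
    E G (insert v X) (insert v X) = E G X X + 2 * nin G v X := by
  rw [E_insert_left G h, E_symm G X (insert v X), E_insert_left G h]
  have : nin G v (insert v X) = nin G v X := by
    rw [Finset.insert_eq, nin_union G (by simpa using h)]
    have : nin G v {v} = 0 := by simp [nin, E, adj_self]
    rw [this, zero_add]
  rw [this]; ring

lemma psi_insert {A X : Finset V} {v : V} (h : v ∉ X) :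
    psi G A (insert v X) = psi G A X + 2 * nin G v X + 2 * nin G v A - 2 := by
  unfold psi
  rw [E_insert_self G h, E_insert_left G h, Finset.card_insert_of_notMem h]
  push_cast; ring

lemma even_psi (A X : Finset V) : Even (psi G A X) := by
  induction X using Finset.induction_on with
  | empty => simp [psi, E]
  | insert v X h ih =>
    rw [psi_insert G h]
    obtain ⟨k, hk⟩ := ih
    exact ⟨k + nin G v X + nin G v A - 1, by rw [hk]; ring⟩

/-- supermodularity of the number of inner pairs -/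
lemma E_super (X Y : Finset V) :
    E G X X + E G Y Y ≤ E G (X ∪ Y) (X ∪ Y) + E G (X ∩ Y) (X ∩ Y) := by
  have h1 : X = (X \ Y) ∪ (X ∩ Y) := by ext; simp; tauto
  have h2 : Y = (Y \ X) ∪ (X ∩ Y) := by ext; simp; tauto
  have h3 : X ∪ Y = ((X \ Y) ∪ (Y \ X)) ∪ (X ∩ Y) := by ext; simp; tauto
  have d1 : Disjoint (X \ Y) (X ∩ Y) := by
    rw [Finset.disjoint_left]; intro a; simp; tauto
  have d2 : Disjoint (Y \ X) (X ∩ Y) := by
    rw [Finset.disjoint_left]; intro a; simp; tauto
  have d3 : Disjoint (X \ Y) (Y \ X) := by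
    rw [Finset.disjoint_left]; intro a; simp; tauto
  have d4 : Disjoint ((X \ Y) ∪ (Y \ X)) (X ∩ Y) := by
    rw [Finset.disjoint_union_left]; exact ⟨d1, d2⟩
  have e1 : E G X X = E G (X \ Y) (X \ Y) + 2 * E G (X \ Y) (X ∩ Y)
      + E G (X ∩ Y) (X ∩ Y) := by
    conv_lhs => rw [h1]
    rw [E_union_left G d1, E_union_right G d1, E_union_right G d1,
      E_symm G (X ∩ Y) (X \ Y)]
    ring
  have e2 : E G Y Y = E G (Y \ X) (Y \ X) + 2 * E G (Y \ X) (X ∩ Y)
      + E G (X ∩ Y) (X ∩ Y) := by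
    conv_lhs => rw [h2]
    rw [E_union_left G d2, E_union_right G d2, E_union_right G d2,
      E_symm G (X ∩ Y) (Y \ X)]
    ring
  have e3 : E G (X ∪ Y) (X ∪ Y) = E G (X \ Y) (X \ Y) + E G (Y \ X) (Y \ X)
      + 2 * E G (X \ Y) (Y \ X) + 2 * E G (X \ Y) (X ∩ Y) + 2 * E G (Y \ X) (X ∩ Y)
      + E G (X ∩ Y) (X ∩ Y) := by
    rw [h3, E_union_left G d4, E_union_right G d4, E_union_right G d4,
      E_union_left G d3, E_union_right G d3, E_union_right G d3,
      E_symm G (X ∩ Y) ((X \ Y) ∪ (Y \ X)), E_union_left G d3,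
      E_symm G (Y \ X) (X \ Y)]
    ring
  have := E_nonneg G (X \ Y) (Y \ X)
  linarith

lemma E_mod (X Y A : Finset V) :
    E G (X ∪ Y) A + E G (X ∩ Y) A = E G X A + E G Y A := by
  unfold E
  exact Finset.sum_union_inter

lemma psi_super (A X Y : Finset V) :
    psi G A X + psi G A Y ≤ psi G A (X ∪ Y) + psi G A (X ∩ Y) := by
  unfold psi
  have h1 := E_super G X Y
  have h2 := E_mod G X Y A
  have h3 : ((X ∪ Y).card : ℤ) + (X ∩ Y).card = X.card + Y.card := by
    exact_mod_cast Finset.card_union_add_card_inter X Y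
  linarith

/-- outward paths starting at `x₁` from `X₀` -/
inductive Out (X₀ : Finset V) (x₁ : V) : ℕ → Finset V → V → Prop
  | start : Out X₀ x₁ 0 (insert x₁ X₀) x₁
  | step {k : ℕ} {X : Finset V} {y z : V} : Out X₀ x₁ k X y → G.Adj y z → z ∉ X →
      Out X₀ x₁ (k + 1) (insert z X) z

section growth

variable {A X₀ : Finset V} {x₁ : V} {r : ℕ}

/-- the invariants of outward paths -/
lemma out_inv (hX₀A : Disjoint A X₀) (hx₁ : x₁ ∉ X₀) (hx₁A : x₁ ∉ A)
    (hadj : ∃ u ∈ X₀, G.Adj u x₁)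
    (hmax : ∀ X : Finset V, X₀ ⊆ X → Disjoint A X → X.card ≤ X₀.card + (2 * r + 1) →
      psi G A X ≤ psi G A X₀) :
    ∀ {k : ℕ} {X : Finset V} {y : V}, Out G X₀ x₁ k X y → k ≤ r →
      X₀ ⊆ X ∧ Disjoint A X ∧ X.card = X₀.card + 1 + k ∧ y ∈ X ∧
      psi G A X₀ ≤ psi G A X ∧ nin G y X ≤ 1 ∧ nin G y A = 0 := by
  intro k X y hout
  induction hout with
  | start =>
    intro _
    obtain ⟨u, hu, hux⟩ := hadj
    have hcard : (insert x₁ X₀).card = X₀.card + 1 := Finset.card_insert_of_notMem hx₁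
    have hdisj : Disjoint A (insert x₁ X₀) := by
      rw [Finset.disjoint_insert_right]; exact ⟨hx₁A, hX₀A⟩
    have h1 : 1 ≤ nin G x₁ X₀ := by
      by_contra hcon
      have h0 : nin G x₁ X₀ = 0 := le_antisymm (by omega) (nin_nonneg G _ _)
      rw [nin_eq_zero_iff] at h0
      exact h0 u hu hux.symm
    have h2 := nin_nonneg G x₁ A
    have h3 := psi_insert G (A := A) hx₁
    have h4 := hmax (insert x₁ X₀) (Finset.subset_insert _ _) hdisj (by omega)
    have h5 : nin G x₁ (insert x₁ X₀) = nin G x₁ X₀ := by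
      rw [Finset.insert_eq, nin_union G (by simpa using hx₁)]
      have : nin G x₁ {x₁} = 0 := by simp [nin, E, adj_self]
      rw [this, zero_add]
    refine ⟨Finset.subset_insert _ _, hdisj, by omega, Finset.mem_insert_self _ _, ?_, ?_, ?_⟩
    · omega
    · rw [h5]; omega
    · omega
  | step hprev hyz hzX ih =>
    rename_i k X y z
    intro hk
    obtain ⟨i1, i2, i3, i4, i5, i6, i7⟩ := ih (by omega)
    have hcard : (insert z X).card = X.card + 1 := Finset.card_insert_of_notMem hzX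
    have hzA : z ∉ A := by
      rw [nin_eq_zero_iff] at i7
      intro hz
      exact i7 z hz hyz
    have hdisj : Disjoint A (insert z X) := by
      rw [Finset.disjoint_insert_right]; exact ⟨hzA, i2⟩
    have h1 : 1 ≤ nin G z X := by
      by_contra hcon
      have h0 : nin G z X = 0 := le_antisymm (by omega) (nin_nonneg G _ _)
      rw [nin_eq_zero_iff] at h0
      exact h0 y i4 hyz.symm
    have h2 := nin_nonneg G z A
    have h3 := psi_insert G (A := A) hzX
    have h4 := hmax (insert z X) (i1.trans (Finset.subset_insert _ _)) hdisj (by omega)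
    have h5 : nin G z (insert z X) = nin G z X := by
      rw [Finset.insert_eq, nin_union G (by simpa using hzX)]
      have : nin G z {z} = 0 := by simp [nin, E, adj_self]
      rw [this, zero_add]
    refine ⟨i1.trans (Finset.subset_insert _ _), hdisj, by omega,
      Finset.mem_insert_self _ _, ?_, ?_, ?_⟩
    · omega
    · rw [h5]; omega
    · omega

lemma out_pred_unique (hX₀A : Disjoint A X₀) (hx₁ : x₁ ∉ X₀) (hx₁A : x₁ ∉ A)
    (hadj : ∃ u ∈ X₀, G.Adj u x₁)
    (hmax : ∀ X : Finset V, X₀ ⊆ X → Disjoint A X → X.card ≤ X₀.card + (2 * r + 1) →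
      psi G A X ≤ psi G A X₀)
    {k : ℕ} (hk : k + 1 ≤ r) {X X' : Finset V} {y y' z : V}
    (hX : Out G X₀ x₁ k X y) (hX' : Out G X₀ x₁ k X' y')
    (hyz : G.Adj y z) (hy'z : G.Adj y' z) (hz : z ∉ X) (hz' : z ∉ X') : y = y' := by
  obtain ⟨i1, i2, i3, i4, i5, i6, i7⟩ :=
    out_inv G hX₀A hx₁ hx₁A hadj hmax hX (by omega)
  obtain ⟨j1, j2, j3, j4, j5, j6, j7⟩ :=
    out_inv G hX₀A hx₁ hx₁A hadj hmax hX' (by omega)
  by_contra hne
  have hzU : z ∉ X ∪ X' := by simp [hz, hz']
  have hcU : (X ∪ X').card ≤ X₀.card + 2 * (1 + k) := by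
    have h1 := Finset.card_union_add_card_inter X X'
    have h2 : X₀.card ≤ (X ∩ X').card :=
      Finset.card_le_card (Finset.subset_inter i1 j1)
    omega
  have hdU : Disjoint A (X ∪ X') := by
    rw [Finset.disjoint_union_right]; exact ⟨i2, j2⟩
  have hinter := hmax (X ∩ X') (Finset.subset_inter i1 j1)
    (i2.mono_right Finset.inter_subset_left) (by
      have : (X ∩ X').card ≤ X.card := Finset.card_le_card Finset.inter_subset_left
      omega)
  have hsup := psi_super G A X X'
  have hzA : z ∉ A := by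
    rw [nin_eq_zero_iff] at i7
    intro hz
    exact i7 z hz hyz
  have hdz : Disjoint A (insert z (X ∪ X')) := by
    rw [Finset.disjoint_insert_right]; exact ⟨hzA, hdU⟩
  have h3 := psi_insert G (A := A) hzU
  have h4 := hmax (insert z (X ∪ X'))
    (i1.trans (Finset.subset_union_left.trans (Finset.subset_insert _ _))) hdz (by
      rw [Finset.card_insert_of_notMem hzU]; omega)
  have h5 : 2 ≤ nin G z (X ∪ X') := by
    have hsub : ({y, y'} : Finset V) ⊆ X ∪ X' := by
      intro a ha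
      simp only [Finset.mem_insert, Finset.mem_singleton] at ha
      rcases ha with rfl | rfl
      · exact Finset.mem_union_left _ i4
      · exact Finset.mem_union_right _ j4
    have h6 : nin G z {y, y'} = 2 := by
      unfold nin E
      rw [Finset.sum_singleton, Finset.sum_pair hne]
      unfold adj
      rw [if_pos hyz.symm, if_pos hy'z.symm]; norm_num
    rw [← h6]; exact nin_mono G hsub z
  have h6 := nin_nonneg G z A
  omega

lemma out_unique (hX₀A : Disjoint A X₀) (hx₁ : x₁ ∉ X₀) (hx₁A : x₁ ∉ A)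
    (hadj : ∃ u ∈ X₀, G.Adj u x₁)
    (hmax : ∀ X : Finset V, X₀ ⊆ X → Disjoint A X → X.card ≤ X₀.card + (2 * r + 1) →
      psi G A X ≤ psi G A X₀) :
    ∀ {k : ℕ}, k ≤ r → ∀ {X X' : Finset V} {y : V},
      Out G X₀ x₁ k X y → Out G X₀ x₁ k X' y → X = X' := by
  intro k
  induction k with
  | zero =>
    intro _ X X' y h h'
    cases h; cases h'; rfl
  | succ k ih =>
    intro hk X X' y h h'
    cases h with
    | step hp hyz hz =>
      cases h' with
      | step hp' hyz' hz' =>
        have := out_pred_unique G hX₀A hx₁ hx₁A hadj hmax hk hp hp' hyz hyz' hz hz'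
        subst this
        rw [ih (by omega) hp hp']

/-- number of endpoints doubles -/
lemma out_card (hX₀A : Disjoint A X₀) (hx₁ : x₁ ∉ X₀) (hx₁A : x₁ ∉ A)
    (hadj : ∃ u ∈ X₀, G.Adj u x₁) (hdeg : ∀ v, 3 ≤ G.degree v)
    (hmax : ∀ X : Finset V, X₀ ⊆ X → Disjoint A X → X.card ≤ X₀.card + (2 * r + 1) →
      psi G A X ≤ psi G A X₀) :
    ∀ k ≤ r, ∃ Y : Finset V, 2 ^ k ≤ Y.card ∧ ∀ y ∈ Y, ∃ X, Out G X₀ x₁ k X y := by
  classical
  intro k
  induction k with
  | zero =>
    intro _
    exact ⟨{x₁}, by simp, by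
      intro y hy
      rw [Finset.mem_singleton] at hy
      subst hy
      exact ⟨_, Out.start⟩⟩
  | succ k ih =>
    intro hk
    obtain ⟨Y, hYc, hY⟩ := ih (by omega)
    choose! f hf using hY
    refine ⟨Y.biUnion fun y => G.neighborFinset y \ f y, ?_, ?_⟩
    · rw [Finset.card_biUnion]
      · calc 2 ^ (k + 1) = 2 ^ k * 2 := pow_succ 2 k
          _ ≤ Y.card * 2 := by gcongr
          _ = ∑ _y ∈ Y, 2 := by simp
          _ ≤ ∑ y ∈ Y, (G.neighborFinset y \ f y).card := by
            refine Finset.sum_le_sum fun y hy => ?_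
            obtain ⟨i1, i2, i3, i4, i5, i6, i7⟩ :=
              out_inv G hX₀A hx₁ hx₁A hadj hmax (hf y hy) (by omega)
            rw [nin_eq] at i6
            have h1 := Finset.card_sdiff_add_card_inter (G.neighborFinset y) (f y)
            have h2 : (G.neighborFinset y).card = G.degree y := G.card_neighborFinset_eq_degree y
            have h3 := hdeg y
            have h4 : (G.neighborFinset y ∩ f y).card ≤ 1 := by exact_mod_cast i6
            omega
      · intro y hy y' hy' hne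
        rw [Function.onFun, Finset.disjoint_left]
        intro z hz hz'
        simp only [Finset.mem_sdiff, SimpleGraph.mem_neighborFinset] at hz hz'
        exact hne (out_pred_unique G hX₀A hx₁ hx₁A hadj hmax hk (hf y hy) (hf y' hy')
          hz.1 hz'.1 hz.2 hz'.2)
    · intro z hz
      rw [Finset.mem_biUnion] at hz
      obtain ⟨y, hy, hz⟩ := hz
      simp only [Finset.mem_sdiff, SimpleGraph.mem_neighborFinset] at hz
      exact ⟨_, Out.step (hf y hy) hz.1 hz.2⟩

end growth

/-- One improvement step: a small set can be enlarged by `O(log n)` vertices so that the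
excess grows. -/
lemma exists_improve {A X₀ : Finset V} {r : ℕ} (hr : Fintype.card V < 2 ^ r)
    (hdeg : ∀ v, 3 ≤ G.degree v) (hX₀A : Disjoint A X₀) (hne : X₀.Nonempty)
    (hpsi : psi G A X₀ ≤ 0) :
    ∃ X : Finset V, X₀ ⊆ X ∧ Disjoint A X ∧ X.card ≤ X₀.card + (2 * r + 1) ∧
      psi G A X₀ + 2 ≤ psi G A X := by
  by_contra hcon
  push Not at hcon
  have hmax : ∀ X : Finset V, X₀ ⊆ X → Disjoint A X → X.card ≤ X₀.card + (2 * r + 1) →
      psi G A X ≤ psi G A X₀ := by
    intro X h1 h2 h3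
    have h4 := hcon X h1 h2 h3
    obtain ⟨a, ha⟩ := even_psi G A X
    obtain ⟨b, hb⟩ := even_psi G A X₀
    omega
  -- an outgoing edge
  have hout : 0 < E G X₀ (A ∪ X₀)ᶜ := by
    have h1 : E G X₀ univ = ∑ v ∈ X₀, (G.degree v : ℤ) := E_univ_right G X₀
    have h2 : (3 : ℤ) * X₀.card ≤ ∑ v ∈ X₀, (G.degree v : ℤ) := by
      calc (3 : ℤ) * X₀.card = ∑ _v ∈ X₀, (3 : ℤ) := by simp [mul_comm]
        _ ≤ _ := Finset.sum_le_sum fun v _ => by exact_mod_cast hdeg v
    have h3 : E G X₀ univ = E G X₀ (A ∪ X₀)ᶜ + (E G X₀ A + E G X₀ X₀) := by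
      rw [← E_union_right G hX₀A, ← E_union_right G (disjoint_compl_left)]
      congr 1
      ext u; simp; tauto
    have h4 := E_nonneg G X₀ A
    have h5 : (1 : ℤ) ≤ X₀.card := by exact_mod_cast hne.card_pos
    unfold psi at hpsi
    linarith
  obtain ⟨u, hu, hu'⟩ : ∃ u ∈ X₀, 0 < ∑ v ∈ (A ∪ X₀)ᶜ, adj G u v := by
    by_contra hc
    push Not at hc
    have : E G X₀ (A ∪ X₀)ᶜ ≤ 0 := Finset.sum_nonpos hc
    omega
  obtain ⟨x₁, hx₁, hx₁'⟩ : ∃ v ∈ (A ∪ X₀)ᶜ, 0 < adj G u v := by
    by_contra hc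
    push Not at hc
    have := Finset.sum_nonpos hc
    omega
  have hadj : G.Adj u x₁ := by
    unfold adj at hx₁'
    by_contra hc
    rw [if_neg hc] at hx₁'
    omega
  have hx₁A : x₁ ∉ A := by intro h; simp [h] at hx₁
  have hx₁X : x₁ ∉ X₀ := by intro h; simp [h] at hx₁
  obtain ⟨Y, hY, -⟩ := out_card G hX₀A hx₁X hx₁A ⟨u, hu, hadj⟩ hdeg hmax r le_rfl
  have := Finset.card_le_univ Y
  omega

/-- Two improvements give a small set of positive excess. -/
lemma exists_dense {A : Finset V} {r : ℕ} (hr : Fintype.card V < 2 ^ r)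
    (hdeg : ∀ v, 3 ≤ G.degree v) (hne : Aᶜ.Nonempty) :
    ∃ X : Finset V, Disjoint A X ∧ X.card ≤ 4 * r + 3 ∧ 0 < psi G A X := by
  obtain ⟨v, hv⟩ := hne
  have hvA : v ∉ A := by simpa using hv
  have h0 : Disjoint A {v} := by simpa using hvA
  have hpsi0 : -2 ≤ psi G A {v} := by
    unfold psi
    have h1 : E G {v} {v} = 0 := by simp [E, adj_self]
    have h2 := E_nonneg G {v} A
    rw [h1]; simp; linarith
  by_cases hp0 : 0 < psi G A {v}
  · exact ⟨{v}, h0, by simp, hp0⟩
  push Not at hp0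
  obtain ⟨X1, hX1, hX1A, hX1c, hX1p⟩ := exists_improve G hr hdeg h0 ⟨v, by simp⟩ hp0
  by_cases hp1 : 0 < psi G A X1
  · refine ⟨X1, hX1A, ?_, hp1⟩
    simp at hX1c; omega
  push Not at hp1
  obtain ⟨X2, hX2, hX2A, hX2c, hX2p⟩ := exists_improve G hr hdeg hX1A
    ⟨v, hX1 (by simp)⟩ hp1
  refine ⟨X2, hX2A, ?_, by omega⟩
  simp at hX1c; omega

end H97.Int
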