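import Pool.Agent.H97.Int.Core

set_option autoImplicit false
set_option linter.unusedSectionVars false

namespace H97.Int

open Finset

variable {V : Type*} [Fintype V] [DecidableEq V] (G : SimpleGraph V) [DecidableRel G.Adj]

/-- ordered adjacent pairs inside `U` with different labels -/
def cross (c : V → ℕ) (U : Finset V) : ℤ :=
  ∑ u ∈ U, ∑ v ∈ U, if c u ≠ c v then adj G u v else 0

/-- every set contains a satisfied set missing at most `2 * cut` vertices -/
lemma exists_sat_subset (H : Finset V) :
    ∃ X ⊆ H, Sat G X ∧ ((H \ X).card : ℤ) ≤ 2 * cut G H := by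
  obtain ⟨X, hX, hmin⟩ := Finset.exists_min_image H.powerset
    (fun X => 2 * cut G X - (X.card : ℤ)) ⟨H, Finset.mem_powerset_self H⟩
  rw [Finset.mem_powerset] at hX
  refine ⟨X, hX, ?_, ?_⟩
  · intro x hx
    have h1 := hmin (X.erase x) (by
      rw [Finset.mem_powerset]; exact (Finset.erase_subset _ _).trans hX)
    have h2 := cut_insert G (A := X.erase x) (v := x) (by simp)
    rw [Finset.insert_erase hx] at h2
    have h4 : ((X.erase x).card : ℤ) = X.card - 1 := by
      rw [Finset.card_erase_of_mem hx]
      have : 1 ≤ X.card := Finset.card_pos.mpr ⟨x, hx⟩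
      omega
    have h5 : nin G x X = nin G x (X.erase x) := by
      conv_lhs => rw [← Finset.insert_erase hx, Finset.insert_eq]
      rw [nin_union G (by simp)]
      have : nin G x {x} = 0 := by simp [nin, E, adj_self]
      rw [this, zero_add]
    rw [h5]
    omega
  · have h1 := hmin H (Finset.mem_powerset_self H)
    have h2 := cut_nonneg G X
    have h3 : (H.card : ℤ) = (H \ X).card + X.card := by
      rw [← Finset.card_sdiff_add_card_eq_card hX]; push_cast; ring
    linarith

lemma sum_cut_labels (c : V → ℕ) :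
    ∑ i ∈ univ.image c, cut G (univ.filter fun v => c v = i) = cross G c univ := by
  unfold cross
  rw [← Finset.sum_fiberwise_of_maps_to (s := univ) (t := univ.image c) (g := c)
    (fun v _ => Finset.mem_image_of_mem c (Finset.mem_univ v))]
  refine Finset.sum_congr rfl fun i _ => ?_
  unfold cut E
  refine Finset.sum_congr rfl fun u hu => ?_
  rw [← Finset.sum_filter]
  refine Finset.sum_congr ?_ fun _ _ => rfl
  simp only [Finset.mem_filter, Finset.mem_univ, true_and] at hu
  ext v
  simp only [Finset.mem_compl, Finset.mem_filter, Finset.mem_univ, true_and]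
  rw [hu]
  exact ⟨fun h h' => h h'.symm, fun h h' => h h'.symm⟩

/-- most vertices lie in small satisfied sets -/
lemma exists_sat_cover (c : V → ℕ) {K : ℕ} (hK : ∀ i, (univ.filter fun v => c v = i).card ≤ K) :
    ∃ P : Finset V, (∀ v ∈ P, ∃ S : Finset V, v ∈ S ∧ Sat G S ∧ S.card ≤ K) ∧
      (Fintype.card V : ℤ) - 2 * cross G c univ ≤ P.card := by
  classical
  choose f hf using fun i : ℕ => exists_sat_subset G (univ.filter fun v => c v = i)
  refine ⟨(univ.image c).biUnion f, ?_, ?_⟩
  · intro v hv
    rw [Finset.mem_biUnion] at hv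
    obtain ⟨i, -, hv⟩ := hv
    exact ⟨f i, hv, (hf i).2.1, (Finset.card_le_card (hf i).1).trans (hK i)⟩
  · have hcomp : (((univ.image c).biUnion f)ᶜ.card : ℤ) ≤ 2 * cross G c univ := by
      have hsub : ((univ.image c).biUnion f)ᶜ ⊆
          (univ.image c).biUnion fun i => (univ.filter fun v => c v = i) \ f i := by
        intro v hv
        rw [Finset.mem_compl, Finset.mem_biUnion] at hv
        rw [Finset.mem_biUnion]
        refine ⟨c v, Finset.mem_image_of_mem c (Finset.mem_univ v), ?_⟩
        rw [Finset.mem_sdiff]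
        refine ⟨by simp, fun h => hv ⟨c v, Finset.mem_image_of_mem c (Finset.mem_univ v), h⟩⟩
      have h1 : (((univ.image c).biUnion f)ᶜ.card : ℤ) ≤
          ∑ i ∈ univ.image c, (((univ.filter fun v => c v = i) \ f i).card : ℤ) := by
        have := (Finset.card_le_card hsub).trans Finset.card_biUnion_le
        exact_mod_cast this
      calc _ ≤ _ := h1
        _ ≤ ∑ i ∈ univ.image c, 2 * cut G (univ.filter fun v => c v = i) :=
          Finset.sum_le_sum fun i _ => (hf i).2.2
        _ = 2 * cross G c univ := by rw [← Finset.mul_sum, sum_cut_labels]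
    have h2 := card_compl_int ((univ.image c).biUnion f)
    linarith

/-- an almost bisection by classes -/
lemma exists_class_bisection (c : V → ℕ) {K : ℕ}
    (hK : ∀ i, (univ.filter fun v => c v = i).card ≤ K) :
    ∃ A : Finset V, imb A ≤ 2 * K ∧ cut G A ≤ cross G c univ := by
  classical
  let F : Finset (Finset ℕ) := (univ.image c).powerset.filter
    fun I => 2 * (univ.filter fun v => c v ∈ I).card ≤ Fintype.card V
  have h0 : (∅ : Finset ℕ) ∈ F := by simp [F]
  obtain ⟨I, hI, hmax⟩ := Finset.exists_max_image F Finset.card ⟨∅, h0⟩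
  simp only [F, Finset.mem_filter, Finset.mem_powerset] at hI
  set A : Finset V := univ.filter fun v => c v ∈ I with hA
  refine ⟨A, ?_, ?_⟩
  · have hn : ((Aᶜ.card : ℤ)) = Fintype.card V - A.card := card_compl_int A
    have h1 : (Fintype.card V : ℤ) - 2 * A.card ≤ 2 * K := by
      by_cases hall : ∀ v, c v ∈ I
      · have : A = univ := by rw [hA]; ext v; simp [hall v]
        have h2 : A.card = Fintype.card V := by rw [this]; rfl
        have := hI.2
        have hc : (2 : ℤ) * A.card ≤ Fintype.card V := by exact_mod_cast this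
        rw [h2] at hc ⊢
        have : (0 : ℤ) ≤ Fintype.card V := by positivity
        have : (0 : ℤ) ≤ K := by positivity
        linarith
      · push Not at hall
        obtain ⟨v, hv⟩ := hall
        have hnot : insert (c v) I ∉ F := by
          intro hmem
          have := hmax _ hmem
          rw [Finset.card_insert_of_notMem hv] at this
          omega
        simp only [F, Finset.mem_filter, Finset.mem_powerset, not_and, not_le] at hnot
        have h2 := hnot (Finset.insert_subset (Finset.mem_image_of_mem c (Finset.mem_univ v)) hI.1)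
        have h3 : (univ.filter fun w => c w ∈ insert (c v) I).card ≤
            (univ.filter fun w => c w = c v).card + A.card := by
          refine le_trans (Finset.card_le_card ?_) (Finset.card_union_le _ _)
          intro w hw
          simp only [Finset.mem_filter, Finset.mem_univ, true_and, Finset.mem_insert] at hw
          simp only [Finset.mem_union, Finset.mem_filter, Finset.mem_univ, true_and, hA]
          exact hw
        have h4 := hK (c v)
        have h5 : Fintype.card V < 2 * (K + A.card) := by omega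
        have h6 : (Fintype.card V : ℤ) < 2 * (K + A.card) := by exact_mod_cast h5
        linarith
    unfold imb
    rw [hn, abs_of_nonneg]
    · linarith
    · have hc : (2 : ℤ) * A.card ≤ Fintype.card V := by exact_mod_cast hI.2
      linarith
  · unfold cut E cross
    calc ∑ u ∈ A, ∑ v ∈ Aᶜ, adj G u v
        ≤ ∑ u ∈ A, ∑ v ∈ Aᶜ, (if c u ≠ c v then adj G u v else 0) := by
          refine Finset.sum_le_sum fun u hu => Finset.sum_le_sum fun v hv => ?_
          rw [if_pos]
          intro h
          simp only [hA, Finset.mem_filter, Finset.mem_univ, true_and,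
            Finset.mem_compl] at hu hv
          exact hv (h ▸ hu)
      _ ≤ ∑ u, ∑ v, (if c u ≠ c v then adj G u v else 0) := by
          have hnn : ∀ u v, 0 ≤ (if c u ≠ c v then adj G u v else 0) := by
            intro u v; split_ifs
            · exact adj_nonneg G u v
            · exact le_rfl
          calc ∑ u ∈ A, ∑ v ∈ Aᶜ, (if c u ≠ c v then adj G u v else 0)
              ≤ ∑ u ∈ A, ∑ v, (if c u ≠ c v then adj G u v else 0) :=
                Finset.sum_le_sum fun u _ =>
                  Finset.sum_le_sum_of_subset_of_nonneg (Finset.subset_univ _)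
                    fun v _ _ => hnn u v
            _ ≤ _ := Finset.sum_le_sum_of_subset_of_nonneg (Finset.subset_univ _)
                    fun u _ _ => Finset.sum_nonneg fun v _ => hnn u v

/-- internal partition with bounded imbalance -/
def NearInternal (C : ℕ) : Prop :=
  ∃ A : Finset V, A.Nonempty ∧ Aᶜ.Nonempty ∧ imb A ≤ C ∧ Sat G A ∧ Sat G Aᶜ

lemma nearInternal_of {C : ℕ} (hn : C < Fintype.card V) {A : Finset V} (hA : Sat G A)
    (hAc : Sat G Aᶜ) (h : imb A ≤ C) : NearInternal G C := by
  have h1 := card_compl_int A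
  have h2 : (C : ℤ) < Fintype.card V := by exact_mod_cast hn
  refine ⟨A, ?_, ?_, h, hA, hAc⟩
  · rw [Finset.nonempty_iff_ne_empty]
    rintro rfl
    unfold imb at h
    simp only [Finset.card_empty, Nat.cast_zero, sub_zero] at h h1
    rw [h1, abs_of_nonneg (by positivity)] at h
    omega
  · rw [Finset.nonempty_iff_ne_empty]
    intro hA0
    unfold imb at h
    rw [hA0] at h h1
    simp only [Finset.card_empty, Nat.cast_zero, zero_sub, abs_neg] at h h1
    rw [abs_of_nonneg (by positivity)] at h
    omega

/-- The criterion: a cheap almost bisection plus many vertices in small satisfied sets. -/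
theorem criterion {d K : ℕ} (hd : ∀ v, G.degree v ≤ d) (A₀ P : Finset V)
    (hP : ∀ v ∈ P, ∃ S : Finset V, v ∈ S ∧ Sat G S ∧ S.card ≤ K)
    (hbig : Fintype.card V + ((d : ℤ) + 1) ^ ((d + 2) * K + 2) * (imb A₀ + 2 * cut G A₀)
      < 2 * P.card) :
    ∃ A' : Finset V, Sat G A' ∧ Sat G A'ᶜ ∧ imb A' ≤ 2 * ((d + 1) * K) + 1 := by
  obtain ⟨A, h1, h2, h3, h4, h5⟩ := exists_opt G (s := 1) (Or.inl rfl)
  have h6 := h5 A₀
  rw [one_mul, one_mul] at h6
  have himb : imb A = ((Aᶜ.card - A.card : ℕ) : ℤ) := by
    unfold imb
    rw [abs_of_nonneg]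
    · push_cast [h1]; ring
    · have : (A.card : ℤ) ≤ Aᶜ.card := by exact_mod_cast h1
      linarith
  refine core G hd h1 h2 h3 ?_ P hP ?_
  · intro X hX hle
    have := h4 X hX (by
      have : ((2 * X.card : ℕ) : ℤ) ≤ ((Aᶜ.card - A.card : ℕ) : ℤ) := by exact_mod_cast hle
      push_cast [h1] at this ⊢
      linarith)
    rwa [one_mul] at this
  · rw [himb] at h6
    have h7 : ((d : ℤ) + 1) ^ ((d + 2) * K + 2) * ((Aᶜ.card - A.card : ℕ) : ℤ) ≤
        ((d : ℤ) + 1) ^ ((d + 2) * K + 2) * (imb A₀ + 2 * cut G A₀) :=
      mul_le_mul_of_nonneg_left h6 (by positivity)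
    have h8 : (Fintype.card V : ℤ) + ((d : ℤ) + 1) ^ ((d + 2) * K + 2)
        * ((Aᶜ.card - A.card : ℕ) : ℤ) < 2 * P.card := by linarith
    exact_mod_cast h8

/-- Hyperfinite version with explicit scales. -/
theorem hyperfinite {d K K' : ℕ} (hd : ∀ v, G.degree v ≤ d)
    (c : V → ℕ) (hc : ∀ i, (univ.filter fun v => c v = i).card ≤ K)
    (hcross : 16 * cross G c univ ≤ Fintype.card V)
    (c' : V → ℕ) (hc' : ∀ i, (univ.filter fun v => c' v = i).card ≤ K')
    (hcross' : 8 * ((d : ℤ) + 1) ^ ((d + 2) * K + 2) * cross G c' univ ≤ Fintype.card V)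
    (hn : 8 * ((d : ℤ) + 1) ^ ((d + 2) * K + 2) * K' < Fintype.card V) :
    ∃ A' : Finset V, Sat G A' ∧ Sat G A'ᶜ ∧ imb A' ≤ 2 * ((d + 1) * K) + 1 := by
  obtain ⟨P, hP, hPc⟩ := exists_sat_cover G c hc
  obtain ⟨A₀, hA₀, hA₀c⟩ := exists_class_bisection G c' hc'
  refine criterion G hd A₀ P hP ?_
  set q : ℤ := ((d : ℤ) + 1) ^ ((d + 2) * K + 2) with hq
  have hq0 : 0 ≤ q := by positivity
  have h1 : q * (imb A₀ + 2 * cut G A₀) ≤ q * (2 * K' + 2 * cross G c' univ) :=
    mul_le_mul_of_nonneg_left (by linarith) hq0
  have h2 : q * (2 * (K' : ℤ) + 2 * cross G c' univ) = 2 * (q * K') + 2 * (q * cross G c' univ) := by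
    ring
  nlinarith

end H97.Int
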