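import Pool.Agent.H97.Int.Growth
import Pool.Agent.H97.Int.Hyper

set_option autoImplicit false
set_option linter.unusedSectionVars false

namespace H97.Int

open Finset

variable {V : Type*} [Fintype V] [DecidableEq V] (G : SimpleGraph V) [DecidableRel G.Adj]

/-- For `d = 3, 4` there is an optimal internal partition with logarithmic imbalance. -/
theorem exists_log {d : ℕ} (hd : d = 3 ∨ d = 4) (hreg : ∀ v, G.degree v = d)
    (hne : 0 < Fintype.card V) :
    ∃ A : Finset V, A.card ≤ Aᶜ.card ∧ Sat G A ∧ Sat G Aᶜ ∧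
      (∀ X : Finset V, Disjoint A X → 2 * X.card ≤ Aᶜ.card - A.card →
        (X.card : ℤ) ≤ cut G (A ∪ X) - cut G A) ∧
      Aᶜ.card - A.card ≤ 8 * Nat.log 2 (Fintype.card V) + 13 := by
  obtain ⟨s, hsd, hs⟩ : ∃ s : ℤ, s = d - 2 ∧
      (s = 1 ∨ (s = 2 ∧ ∀ v, Even (G.degree v))) := by
    rcases hd with rfl | rfl
    · exact ⟨1, by norm_num, Or.inl rfl⟩
    · exact ⟨2, by norm_num, Or.inr ⟨rfl, fun v => by rw [hreg v]; decide⟩⟩
  have hs1 : 1 ≤ s := by rcases hs with h | ⟨h, _⟩ <;> omega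
  obtain ⟨A, h1, h2, h3, h4, -⟩ := exists_opt G hs
  have h4' : ∀ X : Finset V, Disjoint A X → 2 * X.card ≤ Aᶜ.card - A.card →
      s * (X.card : ℤ) ≤ cut G (A ∪ X) - cut G A := by
    intro X hX hle
    refine h4 X hX ?_
    have : ((2 * X.card : ℕ) : ℤ) ≤ ((Aᶜ.card - A.card : ℕ) : ℤ) := by exact_mod_cast hle
    push_cast [h1] at this ⊢
    linarith
  refine ⟨A, h1, h2, h3, ?_, ?_⟩
  · intro X hX hle
    have := h4' X hX hle
    have h0 : (0 : ℤ) ≤ X.card := by positivity
    nlinarith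
  · by_contra hcon
    push Not at hcon
    set r := Nat.log 2 (Fintype.card V) + 1 with hr
    have hlt : Fintype.card V < 2 ^ r := by
      rw [hr]; exact Nat.lt_pow_succ_log_self (by norm_num) _
    have hAc : Aᶜ.Nonempty := by
      rw [← Finset.card_pos]; omega
    obtain ⟨X, hXA, hXc, hXp⟩ := exists_dense G (A := A) hlt
      (fun v => by rw [hreg v]; omega) hAc
    have h5 := h4' X hXA (by omega)
    rw [cut_union_regular G hXA hreg] at h5
    unfold psi at hXp
    rw [hsd] at h5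
    nlinarith

/-- For `d = 3, 4`: bounded imbalance if enough vertices lie in small satisfied sets. -/
theorem exists_bounded {d K : ℕ} (hd : d = 3 ∨ d = 4) (hreg : ∀ v, G.degree v = d)
    (P : Finset V) (hP : ∀ v ∈ P, ∃ S : Finset V, v ∈ S ∧ Sat G S ∧ S.card ≤ K)
    (hbig : Fintype.card V + (d + 1) ^ ((d + 2) * K + 2)
      * (8 * Nat.log 2 (Fintype.card V) + 13) < 2 * P.card) :
    ∃ A' : Finset V, Sat G A' ∧ Sat G A'ᶜ ∧ imb A' ≤ 2 * ((d + 1) * K) + 1 := by
  have hne : 0 < Fintype.card V := by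
    have := Finset.card_le_univ P
    omega
  obtain ⟨A, h1, h2, h3, h4, h5⟩ := exists_log G hd hreg hne
  refine core G (fun v => (hreg v).le) h1 h2 h3 h4 P hP ?_
  refine lt_of_le_of_lt ?_ hbig
  gcongr

end H97.Int
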