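import Pool.Agent.H97.Int.Basic

set_option autoImplicit false
set_option linter.unusedSectionVars false

namespace H97.Int

open Finset

variable {V : Type*} [Fintype V] [DecidableEq V] (G : SimpleGraph V) [DecidableRel G.Adj]

/-- absolute difference of the sizes of the two parts -/
def imb (A : Finset V) : ℤ := |(Aᶜ.card : ℤ) - A.card|

lemma imb_compl (A : Finset V) : imb Aᶜ = imb A := by
  unfold imb; rw [compl_compl, abs_sub_comm]

lemma imb_nonneg (A : Finset V) : 0 ≤ imb A := abs_nonneg _

lemma card_compl_int (A : Finset V) : (Aᶜ.card : ℤ) = Fintype.card V - A.card := by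
  rw [Finset.card_compl]
  have := Finset.card_le_univ A
  omega

lemma adj_le_one (u v : V) : adj G u v ≤ 1 := by
  unfold adj; split_ifs <;> simp

lemma E_le (S T : Finset V) : E G S T ≤ S.card * T.card := by
  unfold E
  calc ∑ u ∈ S, ∑ v ∈ T, adj G u v ≤ ∑ _u ∈ S, ∑ _v ∈ T, (1 : ℤ) :=
        Finset.sum_le_sum fun u _ => Finset.sum_le_sum fun v _ => adj_le_one G u v
    _ = S.card * T.card := by simp

lemma cut_le (A : Finset V) : cut G A ≤ (Fintype.card V : ℤ) ^ 2 := by
  have h := E_le G A Aᶜ
  have h1 : (A.card : ℤ) ≤ Fintype.card V := by exact_mod_cast Finset.card_le_univ A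
  have h2 : (Aᶜ.card : ℤ) ≤ Fintype.card V := by exact_mod_cast Finset.card_le_univ Aᶜ
  unfold cut
  nlinarith [Nat.zero_le A.card, Nat.zero_le Aᶜ.card, Int.natCast_nonneg A.card]

/-- the energy -/
def Phi (M s : ℤ) (A : Finset V) : ℤ := 2 * (M + 1) * cut G A + s * M * imb A

lemma Phi_compl (M s : ℤ) (A : Finset V) : Phi G M s Aᶜ = Phi G M s A := by
  unfold Phi; rw [cut_compl, imb_compl]

lemma nin_insert_compl {A : Finset V} {v : V} (h : v ∉ A) :
    nin G v (insert v A)ᶜ = nin G v Aᶜ := by
  have h1 : Aᶜ = (insert v A)ᶜ ∪ {v} := by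
    ext u; simp only [Finset.mem_compl, Finset.mem_union, Finset.mem_insert,
      Finset.mem_singleton, not_or]
    constructor
    · intro hu
      by_cases huv : u = v
      · exact Or.inr huv
      · exact Or.inl ⟨huv, hu⟩
    · rintro (⟨_, h2⟩ | h2)
      · exact h2
      · rw [h2]; exact h
  have h2 : Disjoint (insert v A)ᶜ {v} := by
    rw [Finset.disjoint_singleton_right]; simp
  rw [h1, nin_union G h2]
  have : nin G v {v} = 0 := by simp [nin, E, adj_self]
  rw [this, add_zero]

lemma cut_insert' {A : Finset V} {v : V} (h : v ∉ A) :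
    cut G (insert v A) = cut G A + nin G v Aᶜ - nin G v A := by
  rw [cut_insert G h, nin_insert_compl G h]

lemma imb_insert_le {A : Finset V} {v : V} (h : v ∉ A) : imb (insert v A) ≤ imb A + 2 := by
  unfold imb
  rw [card_compl_int, card_compl_int, Finset.card_insert_of_notMem h]
  push_cast
  rw [show (Fintype.card V : ℤ) - (A.card + 1) - (A.card + 1)
    = (Fintype.card V - A.card - A.card) + (-2) by ring]
  refine (abs_add_le _ _).trans ?_
  simp

/-- a minimiser of the energy is satisfied (complement side) -/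
lemma sat_compl_of_min {M s : ℤ} (hM : 0 ≤ M)
    (hs : s = 1 ∨ (s = 2 ∧ ∀ v, Even (G.degree v))) {A : Finset V}
    (hmin : ∀ A', Phi G M s A ≤ Phi G M s A') : Sat G Aᶜ := by
  intro v hv
  rw [compl_compl]
  have hvA : v ∉ A := by simpa using hv
  have h1 := hmin (insert v A)
  unfold Phi at h1
  rw [cut_insert' G hvA] at h1
  have h2 := imb_insert_le hvA
  have hs0 : 0 < s := by rcases hs with h | ⟨h, _⟩ <;> rw [h] <;> norm_num
  have h3 : s * M * imb (insert v A) ≤ s * M * imb A + 2 * (s * M) := by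
    have := mul_le_mul_of_nonneg_left h2 (mul_nonneg hs0.le hM)
    linarith
  set D := nin G v Aᶜ - nin G v A with hD
  have h4 : 0 ≤ (M + 1) * D + s * M := by
    have : 2 * (M + 1) * (cut G A + nin G v Aᶜ - nin G v A)
      = 2 * (M + 1) * cut G A + 2 * ((M + 1) * D) := by rw [hD]; ring
    rw [this] at h1
    linarith
  have h5 : -s < D := by
    by_contra hcon
    push Not at hcon
    have : (M + 1) * D ≤ (M + 1) * (-s) := mul_le_mul_of_nonneg_left hcon (by linarith)
    nlinarith
  have h6 : 0 ≤ D := by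
    rcases hs with h | ⟨h, hev⟩
    · omega
    · have h7 : D = (G.degree v : ℤ) - 2 * nin G v A := by
        have := nin_add_compl G v A
        rw [hD]; linarith
      obtain ⟨k, hk⟩ := hev v
      rw [hk] at h7
      push_cast at h7
      omega
  linarith

/-- Existence of an optimal internal partition (or a trivial one). -/
theorem exists_opt {s : ℤ} (hs : s = 1 ∨ (s = 2 ∧ ∀ v, Even (G.degree v))) :
    ∃ A : Finset V, A.card ≤ Aᶜ.card ∧ Sat G A ∧ Sat G Aᶜ ∧
      (∀ X : Finset V, Disjoint A X → 2 * (X.card : ℤ) ≤ (Aᶜ.card : ℤ) - A.card →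
        s * X.card ≤ cut G (A ∪ X) - cut G A) ∧
      (∀ A₀ : Finset V, s * imb A ≤ s * imb A₀ + 2 * cut G A₀) := by
  set n : ℤ := (Fintype.card V : ℤ) with hn
  have hn0 : 0 ≤ n := by rw [hn]; positivity
  set M : ℤ := 2 * n ^ 2 + 2 * n + 1 with hMdef
  have hM : 0 < M := by positivity
  have hs0 : 0 < s := by rcases hs with h | ⟨h, _⟩ <;> rw [h] <;> norm_num
  have hs2 : s ≤ 2 := by rcases hs with h | ⟨h, _⟩ <;> rw [h] <;> norm_num
  obtain ⟨A1, -, hA1⟩ := Finset.exists_min_image (univ : Finset (Finset V)) (Phi G M s)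
    ⟨∅, Finset.mem_univ _⟩
  have hmin1 : ∀ A', Phi G M s A1 ≤ Phi G M s A' := fun A' => hA1 A' (Finset.mem_univ _)
  obtain ⟨A, hcard, hmin⟩ : ∃ A : Finset V, A.card ≤ Aᶜ.card ∧
      ∀ A', Phi G M s A ≤ Phi G M s A' := by
    rcases le_total A1.card A1ᶜ.card with h | h
    · exact ⟨A1, h, hmin1⟩
    · refine ⟨A1ᶜ, by rw [compl_compl]; exact h, fun A' => ?_⟩
      rw [Phi_compl]; exact hmin1 A'
  refine ⟨A, hcard, ?_, sat_compl_of_min G hM.le hs hmin, ?_, ?_⟩
  · have := sat_compl_of_min G hM.le hs (A := Aᶜ)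
      (fun A' => by rw [Phi_compl]; exact hmin A')
    rwa [compl_compl] at this
  · intro X hX hle
    have h1 := hmin (A ∪ X)
    unfold Phi at h1
    have hc : ((A ∪ X).card : ℤ) = A.card + X.card := by
      rw [Finset.card_union_of_disjoint hX]; push_cast; ring
    have himb : imb (A ∪ X) = imb A - 2 * X.card := by
      unfold imb
      rw [card_compl_int] at hle
      rw [card_compl_int, card_compl_int, hc, abs_of_nonneg, abs_of_nonneg]
      · ring
      · have := Int.natCast_nonneg X.card; linarith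
      · linarith
    rw [himb] at h1
    set c := cut G (A ∪ X) - cut G A with hcdef
    have h2 : s * M * X.card ≤ (M + 1) * c := by
      have e1 : 2 * (M + 1) * cut G (A ∪ X) = 2 * (M + 1) * cut G A + 2 * ((M + 1) * c) := by
        rw [hcdef]; ring
      have e2 : s * M * (imb A - 2 * X.card) = s * M * imb A - 2 * (s * M * X.card) := by ring
      rw [e1, e2] at h1
      linarith
    have hXn : (X.card : ℤ) ≤ n := by rw [hn]; exact_mod_cast Finset.card_le_univ X
    have hX0 : (0 : ℤ) ≤ X.card := Int.natCast_nonneg _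
    by_contra hcon
    push Not at hcon
    have h3 : c ≤ s * X.card - 1 := by omega
    have h4 : (M + 1) * c ≤ (M + 1) * (s * X.card - 1) :=
      mul_le_mul_of_nonneg_left h3 (by linarith)
    have h5 : s * (X.card : ℤ) ≤ 2 * n := by nlinarith
    have h6 : 2 * n < M + 1 := by rw [hMdef]; nlinarith
    nlinarith
  · intro A₀
    have h1 := hmin A₀
    unfold Phi at h1
    have h2 := cut_nonneg G A
    have h3 := cut_le G A₀
    have h4 : M * (s * imb A - s * imb A₀ - 2 * cut G A₀) ≤ 2 * cut G A₀ := by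
      have : 0 ≤ 2 * (M + 1) * cut G A := by positivity
      nlinarith
    by_contra hcon
    push Not at hcon
    have h5 : 1 ≤ s * imb A - s * imb A₀ - 2 * cut G A₀ := by omega
    have h6 : M * 1 ≤ M * (s * imb A - s * imb A₀ - 2 * cut G A₀) :=
      mul_le_mul_of_nonneg_left h5 hM.le
    have h7 : 2 * n ^ 2 < M := by rw [hMdef]; linarith
    have h8 : cut G A₀ ≤ n ^ 2 := by rw [hn]; exact h3
    linarith

end H97.Int
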