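import Pool.Agent.H97.Int.LowDegree

set_option autoImplicit false

namespace H97.Int.SmallCores

/-- For `d = 3, 4` and every `K` there is a constant `C` such that a `d`-regular graph on `n`
vertices in which more than `n / 2 + C (log n + 1)` vertices lie in sets of at most `K` vertices
inducing a subgraph of minimum degree at least two (for example, on cycles of length at most `K`)
has an internal partition whose parts differ in size by at most `C`. -/
theorem result :
    ∀ d : ℕ, (d = 3 ∨ d = 4) → ∀ K : ℕ, ∃ C : ℕ, ∀ (V : Type) [Fintype V] [DecidableEq V]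
      (G : SimpleGraph V) [DecidableRel G.Adj],
      G.IsRegularOfDegree d →
      ∀ P : Finset V,
      (∀ v ∈ P, ∃ S : Finset V, v ∈ S ∧ S.card ≤ K ∧ ∀ u ∈ S, 2 ≤ (G.neighborFinset u ∩ S).card) →
      Fintype.card V + C * (Nat.log 2 (Fintype.card V) + 1) < 2 * P.card →
      ∃ A : Finset V, A.Nonempty ∧ Aᶜ.Nonempty ∧
        |(A.card : ℤ) - (Aᶜ.card : ℤ)| ≤ (C : ℤ) ∧
        ∀ v : V,
          (v ∈ A → (G.neighborFinset v ∩ Aᶜ).card ≤ (G.neighborFinset v ∩ A).card) ∧
          (v ∉ A → (G.neighborFinset v ∩ A).card ≤ (G.neighborFinset v ∩ Aᶜ).card) := by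
  intro d hd K
  refine ⟨13 * (d + 1) ^ ((d + 2) * K + 2) + (2 * ((d + 1) * K) + 1), ?_⟩
  intro V _ _ G _ hreg P hP hbig
  set q := (d + 1) ^ ((d + 2) * K + 2) with hq
  have hdeg : ∀ v, G.degree v = d := fun v => hreg v
  have hPsat : ∀ v ∈ P, ∃ S : Finset V, v ∈ S ∧ H97.Int.Sat G S ∧ S.card ≤ K := by
    intro v hv
    obtain ⟨S, hvS, hSK, hS⟩ := hP v hv
    refine ⟨S, hvS, ?_, hSK⟩
    intro u hu
    have h1 := H97.Int.nin_add_compl G u S
    have h2 := hS u hu
    rw [hdeg u] at h1
    have h3 : (2 : ℤ) ≤ H97.Int.nin G u S := by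
      rw [H97.Int.nin_eq]; exact_mod_cast h2
    rcases hd with rfl | rfl <;> push_cast at h1 <;> linarith
  have hbig' : Fintype.card V + q * (8 * Nat.log 2 (Fintype.card V) + 13) < 2 * P.card := by
    refine lt_of_le_of_lt ?_ hbig
    nlinarith [Nat.zero_le (q * Nat.log 2 (Fintype.card V)),
      Nat.zero_le ((d + 1) * K * Nat.log 2 (Fintype.card V)), Nat.zero_le ((d + 1) * K),
      Nat.zero_le (Nat.log 2 (Fintype.card V))]
  have hCn : 13 * q + (2 * ((d + 1) * K) + 1) < Fintype.card V := by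
    have h4 : P.card ≤ Fintype.card V := Finset.card_le_univ P
    have h5 : 13 * q + (2 * ((d + 1) * K) + 1) ≤
        (13 * q + (2 * ((d + 1) * K) + 1)) * (Nat.log 2 (Fintype.card V) + 1) :=
      Nat.le_mul_of_pos_right _ (Nat.succ_pos _)
    omega
  obtain ⟨A, h2, h3, h4⟩ := H97.Int.exists_bounded G hd hdeg P hPsat hbig'
  have h4' : H97.Int.imb A ≤ ((13 * q + (2 * ((d + 1) * K) + 1) : ℕ) : ℤ) := by
    push_cast
    have : (0 : ℤ) ≤ 13 * q := by positivity
    linarith
  obtain ⟨A, hA, hAc, him, hs, hsc⟩ := H97.Int.nearInternal_of G hCn h2 h3 h4'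
  refine ⟨A, hA, hAc, ?_, ?_⟩
  · unfold H97.Int.imb at him
    rw [abs_sub_comm]; exact him
  · intro v
    constructor
    · intro hv
      have := hs v hv
      rw [H97.Int.nin_eq, H97.Int.nin_eq] at this
      exact_mod_cast this
    · intro hv
      have := hsc v (by simpa using hv)
      rw [compl_compl, H97.Int.nin_eq, H97.Int.nin_eq] at this
      exact_mod_cast this

end H97.Int.SmallCores
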